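import Pool.Agent.H581R2.SplayAccess

set_option autoImplicit false

/-! A general form of the access lemma for splaying, for ranks which are functions of the list of the
keys of a subtree. -/

namespace Run7.h471.Spl

open Pool.Agent.H581R2.Splay Tr

/-- sum of the ranks of the nodes; the rank of a node is the value of `R` at the list of the keys of
its subtree -/
noncomputable def Psi (R : List ℕ → ℝ) : Tr → ℝ
  | nil => 0
  | node a l r => R (keys (node a l r)) + Psi R l + Psi R r

/-- the two properties of ranks which are used -/
def IsRank (R : List ℕ → ℝ) (K : List ℕ) : Prop :=
  (∀ A B C : List ℕ, (A ++ B ++ C) <:+: K → R B ≤ R (A ++ B ++ C)) ∧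
    ∀ (B : List ℕ) (a : ℕ) (C : List ℕ), B ≠ [] → C ≠ [] → (B ++ a :: C) <:+: K →
      R B + R C ≤ 2 * R (B ++ a :: C) - 2

theorem psi_plug_congr {R : List ℕ → ℝ} : ∀ (fs : List Fr) (t t' : Tr), keys t = keys t' →
    Psi R (plug fs t) - Psi R t = Psi R (plug fs t') - Psi R t' := by
  intro fs
  induction fs with
  | nil => intro t t' _; simp [plug]
  | cons g fs ih =>
    intro t t' h
    cases g with
    | inL a s =>
      have := ih (node a t s) (node a t' s) (by simp [keys, h])
      simp only [plug, plug1]
      simp only [Psi, keys, h] at this ⊢
      linarith
    | inR a s =>
      have := ih (node a s t) (node a s t') (by simp [keys, h])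
      simp only [plug, plug1]
      simp only [Psi, keys, h] at this ⊢
      linarith

theorem infix_plug (fs : List Fr) (t : Tr) : keys t <:+: keys (plug fs t) :=
  ⟨pre fs, post fs, (keys_plug fs t).symm⟩

theorem climb_psi {R : List ℕ → ℝ} (x : ℕ) : ∀ (fs : List Fr) (l r : Tr),
    IsRank R (keys (plug fs (node x l r))) →
    keys (climb x fs l r) = keys (plug fs (node x l r)) ∧
    (fs.length : ℝ) + Psi R (climb x fs l r) ≤
      Psi R (plug fs (node x l r)) +
        3 * (R (keys (plug fs (node x l r))) - R (keys (node x l r))) + 1 := by
  intro fs
  induction hn : fs.length using Nat.strong_induction_on generalizing fs with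
  | _ n ih =>
    intro l r hg
    match fs, hn with
    | [], hn =>
      subst hn
      simp only [climb, plug, List.length_nil]
      refine ⟨trivial, ?_⟩
      push_cast
      linarith
    | [Fr.inL y c], hn =>
      subst hn
      refine ⟨by simp [climb, plug, plug1, keys], ?_⟩
      simp only [climb, plug, plug1, List.length_singleton] at hg ⊢
      have e1 : keys (node x l (node y r c)) = keys (node y (node x l r) c) := by simp [keys]
      have a1 : R (keys (node x l r)) ≤ R (keys (node y (node x l r) c)) := by
        have := hg.1 [] (keys (node x l r)) (y :: keys c) (by simp [keys])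
        simpa [keys] using this
      have a2 : R (keys (node y r c)) ≤ R (keys (node y (node x l r) c)) := by
        have := hg.1 (keys l ++ [x]) (keys (node y r c)) [] (by simp [keys])
        simpa [keys] using this
      simp only [Psi]
      rw [e1]
      push_cast
      linarith
    | [Fr.inR y c], hn =>
      subst hn
      refine ⟨by simp [climb, plug, plug1, keys], ?_⟩
      simp only [climb, plug, plug1, List.length_singleton] at hg ⊢
      have e1 : keys (node x (node y c l) r) = keys (node y c (node x l r)) := by simp [keys]
      have a1 : R (keys (node x l r)) ≤ R (keys (node y c (node x l r))) := by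
        have := hg.1 (keys c ++ [y]) (keys (node x l r)) [] (by simp [keys])
        simpa [keys] using this
      have a2 : R (keys (node y c l)) ≤ R (keys (node y c (node x l r))) := by
        have := hg.1 [] (keys (node y c l)) (x :: keys r) (by simp [keys])
        simpa [keys] using this
      simp only [Psi]
      rw [e1]
      push_cast
      linarith
    | Fr.inL y c :: Fr.inL z d :: fs, hn =>
      simp only [List.length_cons] at hn
      have hk : keys (node x l (node y r (node z c d))) =
          keys (node z (node y (node x l r) c) d) := by simp [keys]
      have hp : plug (Fr.inL y c :: Fr.inL z d :: fs) (node x l r) =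
          plug fs (node z (node y (node x l r) c) d) := rfl
      rw [hp] at hg ⊢
      have hk2 : keys (plug fs (node x l (node y r (node z c d)))) =
          keys (plug fs (node z (node y (node x l r) c) d)) := by
        rw [keys_plug, keys_plug, hk]
      obtain ⟨i1, i2⟩ := ih fs.length (by omega) fs rfl l (node y r (node z c d))
        (by rw [hk2]; exact hg)
      have hi := infix_plug fs (node z (node y (node x l r) c) d)
      have pc := psi_plug_congr (R := R) fs _ _ hk
      have a1 : R (keys (node x l r)) ≤ R (keys (node y (node x l r) c)) := by
        have := hg.1 [] (keys (node x l r)) (y :: keys c) (by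
          refine List.IsInfix.trans ?_ hi
          exact ⟨[], z :: keys d, by simp [keys]⟩)
        simpa [keys] using this
      have a2 : R (keys (node y r (node z c d))) ≤ R (keys (node z (node y (node x l r) c) d)) := by
        have := hg.1 (keys l ++ [x]) (keys (node y r (node z c d))) [] (by
          refine List.IsInfix.trans ?_ hi
          exact ⟨[], [], by simp [keys]⟩)
        simpa [keys] using this
      have a3 : R (keys (node x l r)) + R (keys (node z c d)) ≤
          2 * R (keys (node z (node y (node x l r) c) d)) - 2 := by
        have := hg.2 (keys (node x l r)) y (keys (node z c d)) (by simp [keys]) (by simp [keys]) (by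
          refine List.IsInfix.trans ?_ hi
          exact ⟨[], [], by simp [keys]⟩)
        simpa [keys] using this
      refine ⟨by simp only [climb]; rw [i1, hk2], ?_⟩
      simp only [climb]
      rw [hk2, hk] at i2
      rw [← hn]
      simp only [Psi] at pc
      rw [hk] at pc
      push_cast
      linarith
    | Fr.inR y c :: Fr.inR z d :: fs, hn =>
      simp only [List.length_cons] at hn
      have hk : keys (node x (node y (node z d c) l) r) =
          keys (node z d (node y c (node x l r))) := by simp [keys]
      have hp : plug (Fr.inR y c :: Fr.inR z d :: fs) (node x l r) =
          plug fs (node z d (node y c (node x l r))) := rfl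
      rw [hp] at hg ⊢
      have hk2 : keys (plug fs (node x (node y (node z d c) l) r)) =
          keys (plug fs (node z d (node y c (node x l r)))) := by
        rw [keys_plug, keys_plug, hk]
      obtain ⟨i1, i2⟩ := ih fs.length (by omega) fs rfl (node y (node z d c) l) r
        (by rw [hk2]; exact hg)
      have hi := infix_plug fs (node z d (node y c (node x l r)))
      have pc := psi_plug_congr (R := R) fs _ _ hk
      have a1 : R (keys (node x l r)) ≤ R (keys (node y c (node x l r))) := by
        have := hg.1 (keys c ++ [y]) (keys (node x l r)) [] (by
          refine List.IsInfix.trans ?_ hi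
          exact ⟨keys d ++ [z], [], by simp [keys]⟩)
        simpa [keys] using this
      have a2 : R (keys (node y (node z d c) l)) ≤ R (keys (node z d (node y c (node x l r)))) := by
        have := hg.1 [] (keys (node y (node z d c) l)) (x :: keys r) (by
          refine List.IsInfix.trans ?_ hi
          exact ⟨[], [], by simp [keys]⟩)
        simpa [keys] using this
      have a3 : R (keys (node z d c)) + R (keys (node x l r)) ≤
          2 * R (keys (node z d (node y c (node x l r)))) - 2 := by
        have := hg.2 (keys (node z d c)) y (keys (node x l r)) (by simp [keys]) (by simp [keys]) (by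
          refine List.IsInfix.trans ?_ hi
          exact ⟨[], [], by simp [keys]⟩)
        simpa [keys] using this
      refine ⟨by simp only [climb]; rw [i1, hk2], ?_⟩
      simp only [climb]
      rw [hk2, hk] at i2
      rw [← hn]
      simp only [Psi] at pc
      rw [hk] at pc
      push_cast
      linarith
    | Fr.inL y c :: Fr.inR z d :: fs, hn =>
      simp only [List.length_cons] at hn
      have hk : keys (node x (node z d l) (node y r c)) =
          keys (node z d (node y (node x l r) c)) := by simp [keys]
      have hp : plug (Fr.inL y c :: Fr.inR z d :: fs) (node x l r) =
          plug fs (node z d (node y (node x l r) c)) := rfl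
      rw [hp] at hg ⊢
      have hk2 : keys (plug fs (node x (node z d l) (node y r c))) =
          keys (plug fs (node z d (node y (node x l r) c))) := by
        rw [keys_plug, keys_plug, hk]
      obtain ⟨i1, i2⟩ := ih fs.length (by omega) fs rfl (node z d l) (node y r c)
        (by rw [hk2]; exact hg)
      have hi := infix_plug fs (node z d (node y (node x l r) c))
      have pc := psi_plug_congr (R := R) fs _ _ hk
      have a1 : R (keys (node x l r)) ≤ R (keys (node y (node x l r) c)) := by
        have := hg.1 [] (keys (node x l r)) (y :: keys c) (by
          refine List.IsInfix.trans ?_ hi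
          exact ⟨keys d ++ [z], [], by simp [keys]⟩)
        simpa [keys] using this
      have a2 : R (keys (node x l r)) ≤ R (keys (node z d (node y (node x l r) c))) := by
        have := hg.1 (keys d ++ [z]) (keys (node x l r)) (y :: keys c) (by
          refine List.IsInfix.trans ?_ hi
          exact ⟨[], [], by simp [keys]⟩)
        simpa [keys] using this
      have a3 : R (keys (node z d l)) + R (keys (node y r c)) ≤
          2 * R (keys (node z d (node y (node x l r) c))) - 2 := by
        have := hg.2 (keys (node z d l)) x (keys (node y r c)) (by simp [keys]) (by simp [keys]) (by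
          refine List.IsInfix.trans ?_ hi
          exact ⟨[], [], by simp [keys]⟩)
        simpa [keys] using this
      refine ⟨by simp only [climb]; rw [i1, hk2], ?_⟩
      simp only [climb]
      rw [hk2, hk] at i2
      rw [← hn]
      simp only [Psi] at pc
      rw [hk] at pc
      push_cast
      linarith
    | Fr.inR y c :: Fr.inL z d :: fs, hn =>
      simp only [List.length_cons] at hn
      have hk : keys (node x (node y c l) (node z r d)) =
          keys (node z (node y c (node x l r)) d) := by simp [keys]
      have hp : plug (Fr.inR y c :: Fr.inL z d :: fs) (node x l r) =
          plug fs (node z (node y c (node x l r)) d) := rfl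
      rw [hp] at hg ⊢
      have hk2 : keys (plug fs (node x (node y c l) (node z r d))) =
          keys (plug fs (node z (node y c (node x l r)) d)) := by
        rw [keys_plug, keys_plug, hk]
      obtain ⟨i1, i2⟩ := ih fs.length (by omega) fs rfl (node y c l) (node z r d)
        (by rw [hk2]; exact hg)
      have hi := infix_plug fs (node z (node y c (node x l r)) d)
      have pc := psi_plug_congr (R := R) fs _ _ hk
      have a1 : R (keys (node x l r)) ≤ R (keys (node y c (node x l r))) := by
        have := hg.1 (keys c ++ [y]) (keys (node x l r)) [] (by
          refine List.IsInfix.trans ?_ hi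
          exact ⟨[], z :: keys d, by simp [keys]⟩)
        simpa [keys] using this
      have a2 : R (keys (node x l r)) ≤ R (keys (node z (node y c (node x l r)) d)) := by
        have := hg.1 (keys c ++ [y]) (keys (node x l r)) (z :: keys d) (by
          refine List.IsInfix.trans ?_ hi
          exact ⟨[], [], by simp [keys]⟩)
        simpa [keys] using this
      have a3 : R (keys (node y c l)) + R (keys (node z r d)) ≤
          2 * R (keys (node z (node y c (node x l r)) d)) - 2 := by
        have := hg.2 (keys (node y c l)) x (keys (node z r d)) (by simp [keys]) (by simp [keys]) (by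
          refine List.IsInfix.trans ?_ hi
          exact ⟨[], [], by simp [keys]⟩)
        simpa [keys] using this
      refine ⟨by simp only [climb]; rw [i1, hk2], ?_⟩
      simp only [climb]
      rw [hk2, hk] at i2
      rw [← hn]
      simp only [Psi] at pc
      rw [hk] at pc
      push_cast
      linarith

/-- the access lemma for ranks -/
theorem access_psi {R : List ℕ → ℝ} {x : ℕ} {t : Tr} (hb : IsBST t) (hx : x ∈ keys t)
    (hg : IsRank R (keys t)) :
    ∃ X : List ℕ, x ∈ X ∧ X <:+: keys t ∧ keys (splay x t) = keys t ∧
    (dep x t : ℝ) + Psi R (splay x t) ≤ Psi R t + 3 * (R (keys t) - R X) + 1 := by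
  obtain ⟨h1, h2⟩ := locate_spec x t [] hb hx
  have h1' : plug (locate x t []).1 (node x (locate x t []).2.1 (locate x t []).2.2) = t := h1
  have h2' : (locate x t []).1.length = dep x t := by simpa using h2
  have hc := climb_psi (R := R) x (locate x t []).1 (locate x t []).2.1
    (locate x t []).2.2 (by rw [h1']; exact hg)
  rw [h1', h2'] at hc
  obtain ⟨c1, c2⟩ := hc
  refine ⟨keys (node x (locate x t []).2.1 (locate x t []).2.2), by simp [keys], ?_, c1, c2⟩
  have := infix_plug (locate x t []).1 (node x (locate x t []).2.1 (locate x t []).2.2)
  rw [h1'] at this
  exact this

end Run7.h471.Spl
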