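import Pool.Agent.H581R2.SplayMTR

set_option autoImplicit false

/-! The ancestors of a key in a search tree; how they change when a key is moved to the root, and when
the top part of the tree is rearranged. -/

namespace Run7.h471.Spl

open Pool.Agent.H581R2.Splay Tr

/-- the keys on the search path to `y` strictly above `y`, from the root downwards -/
def anc (y : ℕ) : Tr → List ℕ
  | nil => []
  | node a l r => if y = a then [] else a :: (if y < a then anc y l else anc y r)

theorem anc_a {a : ℕ} {l r : Tr} : anc a (node a l r) = [] := by simp [anc]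

theorem anc_l {a y : ℕ} {l r : Tr} (h : y < a) : anc y (node a l r) = a :: anc y l := by
  simp only [anc]; rw [if_neg (by omega), if_pos h]

theorem anc_r {a y : ℕ} {l r : Tr} (h : a < y) : anc y (node a l r) = a :: anc y r := by
  simp only [anc]; rw [if_neg (by omega), if_neg (by omega)]

theorem anc_mem {y z : ℕ} : ∀ {t : Tr}, z ∈ anc y t → z ∈ keys t := by
  intro t
  induction t with
  | nil => intro h; simp [anc] at h
  | node a l r ihl ihr =>
    intro h
    rcases lt_trichotomy y a with h1 | h1 | h1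
    · rw [anc_l h1] at h
      simp only [List.mem_cons] at h
      rcases h with h | h
      · simp [keys, h]
      · simp [keys, ihl h]
    · subst h1; rw [anc_a] at h; simp at h
    · rw [anc_r h1] at h
      simp only [List.mem_cons] at h
      rcases h with h | h
      · simp [keys, h]
      · simp [keys, ihr h]

theorem dep_eq_anc (y : ℕ) : ∀ t : Tr, dep y t = (anc y t).length := by
  intro t
  induction t with
  | nil => simp [dep, anc]
  | node a l r ihl ihr =>
    rcases lt_trichotomy y a with h1 | h1 | h1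
    · rw [anc_l h1, dep_l h1, ihl]; simp
    · subst h1; rw [anc_a, dep_a]; simp
    · rw [anc_r h1, dep_r h1, ihr]; simp

/-- `v` is `u` or above `u`, and the keys between `v` and `u` on the path are on the side of `u` -/
def Below (t : Tr) (v u : ℕ) : Prop :=
  u = v ∨ (u ≠ v ∧ ∃ β, anc u t = anc v t ++ v :: β ∧ ∀ a ∈ β, a ≠ v ∧ (a < v ↔ u < v))

/-- `v` lies between `u` and `z` -/
def Btw (u z v : ℕ) : Prop := (u ≤ v ∧ v ≤ z) ∨ (z ≤ v ∧ v ≤ u)

theorem mem_keys_l {a y : ℕ} {l r : Tr} (hb : IsBST (node a l r)) (h : y ∈ keys (node a l r))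
    (hy : y < a) : y ∈ keys l := by
  obtain ⟨_, _, _, h2⟩ := bst_node hb
  simp only [keys, List.mem_append, List.mem_cons] at h
  rcases h with h | h | h
  · exact h
  · omega
  · have := h2 y h; omega

theorem mem_keys_r {a y : ℕ} {l r : Tr} (hb : IsBST (node a l r)) (h : y ∈ keys (node a l r))
    (hy : a < y) : y ∈ keys r := by
  obtain ⟨_, _, h1, _⟩ := bst_node hb
  simp only [keys, List.mem_append, List.mem_cons] at h
  rcases h with h | h | h
  · have := h1 y h; omega
  · omega
  · exact h

theorem below_l {a v u : ℕ} {l r : Tr} (hv : v < a) (hu : u < a) (h : Below l v u) :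
    Below (node a l r) v u := by
  rcases h with h | ⟨h, β, e, hs⟩
  · exact Or.inl h
  · refine Or.inr ⟨h, β, ?_, hs⟩
    rw [anc_l hu, anc_l hv, e]; rfl

theorem below_r {a v u : ℕ} {l r : Tr} (hv : a < v) (hu : a < u) (h : Below r v u) :
    Below (node a l r) v u := by
  rcases h with h | ⟨h, β, e, hs⟩
  · exact Or.inl h
  · refine Or.inr ⟨h, β, ?_, hs⟩
    rw [anc_r hu, anc_r hv, e]; rfl

theorem below_root {a u : ℕ} {l r : Tr} (hb : IsBST (node a l r)) :
    Below (node a l r) a u := by
  obtain ⟨_, _, h1, h2⟩ := bst_node hb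
  rcases lt_trichotomy u a with h | h | h
  · refine Or.inr ⟨by omega, anc u l, by rw [anc_l h, anc_a]; rfl, ?_⟩
    intro b hbm
    have := h1 b (anc_mem hbm)
    omega
  · exact Or.inl h
  · refine Or.inr ⟨by omega, anc u r, by rw [anc_r h, anc_a]; rfl, ?_⟩
    intro b hbm
    have := h2 b (anc_mem hbm)
    omega

/-- the lowest common ancestor -/
theorem lca : ∀ (t : Tr), IsBST t → ∀ u ∈ keys t, ∀ z ∈ keys t,
    ∃ v ∈ keys t, Btw u z v ∧ Below t v u ∧ Below t v z := by
  intro t
  induction t with
  | nil => intro _ u hu; simp [keys] at hu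
  | node a l r ihl ihr =>
    intro hb u hu z hz
    obtain ⟨hl, hr, h1, h2⟩ := bst_node hb
    by_cases hA : u < a ∧ z < a
    · obtain ⟨v, hv, b1, b2, b3⟩ := ihl hl u (mem_keys_l hb hu hA.1) z (mem_keys_l hb hz hA.2)
      have hva := h1 v hv
      exact ⟨v, by simp [keys, hv], b1, below_l hva hA.1 b2, below_l hva hA.2 b3⟩
    · by_cases hB : a < u ∧ a < z
      · obtain ⟨v, hv, b1, b2, b3⟩ := ihr hr u (mem_keys_r hb hu hB.1) z (mem_keys_r hb hz hB.2)
        have hva := h2 v hv
        exact ⟨v, by simp [keys, hv], b1, below_r hva hB.1 b2, below_r hva hB.2 b3⟩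
      · refine ⟨a, by simp [keys], ?_, below_root hb, below_root hb⟩
        unfold Btw; omega

/-- the ancestors after moving `x` to the root -/
theorem anc_toRoot (x : ℕ) : ∀ (t : Tr), IsBST t → x ∈ keys t → ∀ y : ℕ, y ≠ x →
    anc y (toRoot x t) = x :: (anc y t).filter (fun a => decide (a ≠ x ∧ (a < x ↔ y < x))) := by
  intro t
  induction t with
  | nil => intro _ h; simp [keys] at h
  | node a l r ihl ihr =>
    intro hb hx y hy
    obtain ⟨hl, hr, h1, h2⟩ := bst_node hb
    have keep : ∀ (s : Tr), (∀ k ∈ keys s, k ≠ x ∧ (k < x ↔ y < x)) →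
        (anc y s).filter (fun a => decide (a ≠ x ∧ (a < x ↔ y < x))) = anc y s := by
      intro s hs
      rw [List.filter_eq_self]
      intro k hk
      simpa using hs k (anc_mem hk)
    rcases lt_trichotomy x a with e | e | e
    · have hxl : x ∈ keys l := mem_keys_l hb hx e
      obtain ⟨⟨L1, R1, hh⟩, hk⟩ := toRoot_spec x l hl hxl
      have ht : toRoot x (node a l r) = node x L1 (node a R1 r) := by
        simp only [toRoot]; rw [if_neg (by omega), if_pos e, hh]; rfl
      have i1 := ihl hl hxl y hy
      rw [ht]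
      rw [hh] at i1
      rcases lt_trichotomy y x with h | h | h
      · rw [anc_l h] at i1 ⊢
        rw [anc_l (show y < a by omega), List.filter_cons, if_neg (by simp; omega)]
        exact i1
      · exact absurd h hy
      · rw [anc_r h] at i1 ⊢
        rcases lt_trichotomy y a with h' | h' | h'
        · rw [anc_l h', anc_l h', List.filter_cons, if_pos (by simp; omega)]
          have := List.cons_injective i1
          rw [this]
        · subst h'; rw [anc_a, anc_a]; rfl
        · rw [anc_r h', anc_r h', List.filter_cons, if_pos (by simp; omega), keep r]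
          intro k hk
          have := h2 k hk
          omega
    · subst e
      have ht : toRoot x (node x l r) = node x l r := by simp [toRoot]
      rw [ht]
      rcases lt_trichotomy y x with h | h | h
      · rw [anc_l h, List.filter_cons, if_neg (by simp), keep l]
        intro k hk
        have := h1 k hk
        omega
      · exact absurd h hy
      · rw [anc_r h, List.filter_cons, if_neg (by simp), keep r]
        intro k hk
        have := h2 k hk
        omega
    · have hxr : x ∈ keys r := mem_keys_r hb hx e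
      obtain ⟨⟨L1, R1, hh⟩, hk⟩ := toRoot_spec x r hr hxr
      have ht : toRoot x (node a l r) = node x (node a l L1) R1 := by
        simp only [toRoot]; rw [if_neg (by omega), if_neg (by omega), hh]; rfl
      have i1 := ihr hr hxr y hy
      rw [ht]
      rw [hh] at i1
      rcases lt_trichotomy y x with h | h | h
      · rw [anc_l h] at i1 ⊢
        rcases lt_trichotomy y a with h' | h' | h'
        · rw [anc_l h', anc_l h', List.filter_cons, if_pos (by simp; omega), keep l]
          intro k hk
          have := h1 k hk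
          omega
        · subst h'; rw [anc_a, anc_a]; rfl
        · rw [anc_r h', anc_r h', List.filter_cons, if_pos (by simp; omega)]
          have := List.cons_injective i1
          rw [this]
      · exact absurd h hy
      · rw [anc_r h] at i1 ⊢
        rw [anc_r (show a < y by omega), List.filter_cons, if_neg (by simp; omega)]
        exact i1

theorem anc_toRoot_self {x : ℕ} {t : Tr} (hb : IsBST t) (hx : x ∈ keys t) :
    anc x (toRoot x t) = [] := by
  obtain ⟨⟨l, r, h⟩, _⟩ := toRoot_spec x t hb hx
  rw [h, anc_a]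

/-- the number of the keys above `y` that are not in `Q` -/
def lev (Q : Finset ℕ) (y : ℕ) (t : Tr) : ℕ := (anc y t).countP (fun a => decide (a ∉ Q))

theorem lev_empty (y : ℕ) (t : Tr) : lev ∅ y t = dep y t := by
  unfold lev
  rw [dep_eq_anc]
  simp

theorem lev_le_dep (Q : Finset ℕ) (y : ℕ) (t : Tr) : lev Q y t ≤ dep y t := by
  rw [dep_eq_anc]
  exact List.countP_le_length

/-- counting the ancestors of a key of least level -/
theorem cnt_le {t : Tr} (hb : IsBST t) {Q : Finset ℕ} {u z : ℕ} (hu : u ∈ keys t)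
    (hz : z ∈ keys t) (hmin : ∀ k ∈ keys t, Btw u z k → lev Q u t ≤ lev Q k t) (p : ℕ → Bool)
    (hp : ∀ a, p a = true → a ∉ Q) : (anc u t).countP p ≤ (anc z t).countP p := by
  obtain ⟨v, hv, b1, b2, b3⟩ := lca t hb u hu z hz
  have hm := hmin v hv b1
  have h1 : (anc v t).countP p ≤ (anc z t).countP p := by
    rcases b3 with h | ⟨h, β, e, hs⟩
    · rw [h]
    · rw [e, List.countP_append]; omega
  refine le_trans ?_ h1
  rcases b2 with h | ⟨h, β, e, hs⟩
  · rw [h]
  · unfold lev at hm
    rw [e, List.countP_append, List.countP_cons] at hm ⊢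
    have hv0 : v ∈ Q := by
      by_contra hc
      rw [if_pos (by simpa using hc)] at hm
      omega
    have hβ : β.countP p ≤ β.countP (fun a => decide (a ∉ Q)) := by
      refine List.countP_mono_left ?_
      intro a _ ha
      simpa using hp a ha
    have hpv : ¬ (p v = true) := fun hc => hp v hc hv0
    rw [if_neg hpv]
    rw [if_neg (by simpa using hv0)] at hm
    omega

/-- level functions of this kind have ties only around keys of `Q` -/
theorem tie_lev {t : Tr} (hb : IsBST t) (Q : Finset ℕ) {k k' : ℕ} (hk : k ∈ keys t)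
    (hk' : k' ∈ keys t) (hlt : k < k') (he : lev Q k t = lev Q k' t) :
    (∃ j ∈ keys t, k < j ∧ j < k' ∧ lev Q j t < lev Q k t) ∨
      ∃ q ∈ keys t, q ∈ Q ∧ k ≤ q ∧ q ≤ k' := by
  obtain ⟨v, hv, b1, b2, b3⟩ := lca t hb k hk k' hk'
  have b1' : k ≤ v ∧ v ≤ k' := by unfold Btw at b1; omega
  by_cases hq : v ∈ Q
  · exact Or.inr ⟨v, hv, hq, b1'.1, b1'.2⟩
  · have lowr : ∀ w, Below t v w → w ≠ v → lev Q v t + 1 ≤ lev Q w t := by
      intro w hw hne
      rcases hw with h | ⟨h, β, e, hs⟩
      · exact absurd h hne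
      · unfold lev
        rw [e, List.countP_append, List.countP_cons, if_pos (by simpa using hq)]
        omega
    by_cases h1 : k = v
    · have := lowr k' b3 (by omega)
      rw [← h1] at this; omega
    · by_cases h2 : k' = v
      · have := lowr k b2 h1
        rw [← h2] at this; omega
      · have := lowr k b2 h1
        exact Or.inl ⟨v, hv, by omega, by omega, by omega⟩

/-- the levels after moving `x` to the root and adding it to `Q` -/
theorem lev_toRoot {x : ℕ} {t : Tr} (hb : IsBST t) (hx : x ∈ keys t) (Q : Finset ℕ) {y : ℕ}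
    (hy : y ≠ x) : lev (insert x Q) y (toRoot x t) =
      (anc y t).countP (fun a => decide (a ∉ Q ∧ (a ≠ x ∧ (a < x ↔ y < x)))) := by
  unfold lev
  rw [anc_toRoot x t hb hx y hy, List.countP_cons, if_neg (by simp), List.countP_filter]
  simp only [Nat.add_zero]
  refine List.countP_congr ?_
  intro a _
  simp only [Finset.mem_insert, not_or, Bool.and_eq_true, decide_eq_true_eq]
  tauto

theorem lev_cmp {x : ℕ} {t : Tr} (hb : IsBST t) (hx : x ∈ keys t) (Q : Finset ℕ) :
    ∀ u ∈ keys t, ∀ z ∈ keys t, ((u < x ∧ z < x) ∨ (x < u ∧ x < z)) →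
      (∀ k ∈ keys t, ((u ≤ k ∧ k ≤ z) ∨ (z ≤ k ∧ k ≤ u)) → lev Q u t ≤ lev Q k t) →
      lev (insert x Q) u (toRoot x t) ≤ lev (insert x Q) z (toRoot x t) ∧
      lev (insert x Q) z (toRoot x t) + lev Q u t ≤
        lev Q z t + lev (insert x Q) u (toRoot x t) := by
  intro u hu z hz hside hmin
  have hux : u ≠ x := by omega
  have hzx : z ≠ x := by omega
  have hs : ∀ a : ℕ, (a < x ↔ u < x) ↔ (a < x ↔ z < x) := by intro a; omega
  rw [lev_toRoot hb hx Q hux, lev_toRoot hb hx Q hzx]
  have e1 : (anc u t).countP (fun a => decide (a ∉ Q ∧ (a ≠ x ∧ (a < x ↔ u < x)))) =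
      (anc u t).countP (fun a => decide (a ∉ Q ∧ (a ≠ x ∧ (a < x ↔ z < x)))) := by
    refine List.countP_congr ?_
    intro a _
    have := hs a
    simp only [decide_eq_true_eq]
    tauto
  rw [e1]
  have c1 := cnt_le hb hu hz hmin (fun a => decide (a ∉ Q ∧ (a ≠ x ∧ (a < x ↔ z < x))))
    (by intro a ha; exact (of_decide_eq_true ha).1)
  have c2 := cnt_le hb hu hz hmin (fun a => decide (a ∉ Q ∧ ¬ (a ≠ x ∧ (a < x ↔ z < x))))
    (by intro a ha; exact (of_decide_eq_true ha).1)
  have split : ∀ L : List ℕ, L.countP (fun a => decide (a ∉ Q)) =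
      L.countP (fun a => decide (a ∉ Q ∧ (a ≠ x ∧ (a < x ↔ z < x)))) +
      L.countP (fun a => decide (a ∉ Q ∧ ¬ (a ≠ x ∧ (a < x ↔ z < x)))) := by
    intro L
    induction L with
    | nil => simp
    | cons b L ih =>
      simp only [List.countP_cons, decide_eq_true_eq] at ih ⊢
      by_cases h1 : b ∈ Q
      · simp only [h1, not_true_eq_false, false_and, if_false]
        omega
      · by_cases h2 : b ≠ x ∧ (b < x ↔ z < x)
        · rw [if_pos h1, if_pos ⟨h1, h2⟩, if_neg (fun h => h.2 h2)]; omega
        · rw [if_pos h1, if_neg (fun h => h2 h.2), if_pos ⟨h1, h2⟩]; omega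
  refine ⟨c1, ?_⟩
  have s1 := split (anc u t)
  have s2 := split (anc z t)
  unfold lev
  omega

/-- `Q` is a top part of the tree -/
def Top (Q : Finset ℕ) (t : Tr) : Prop := ∀ q ∈ Q, q ∈ keys t → ∀ a ∈ anc q t, a ∈ Q

theorem top_toRoot {x : ℕ} {t : Tr} (hb : IsBST t) (hx : x ∈ keys t) {Q : Finset ℕ}
    (h : Top Q t) : Top (insert x Q) (toRoot x t) := by
  intro q hq hqk a ha
  by_cases e : q = x
  · subst e; rw [anc_toRoot_self hb hx] at ha; simp at ha
  · rw [anc_toRoot x t hb hx q e] at ha
    simp only [List.mem_cons, List.mem_filter] at ha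
    rcases ha with ha | ha
    · simp [ha]
    · rw [(toRoot_spec x t hb hx).2] at hqk
      have hq' : q ∈ Q := by simpa [e] using hq
      exact Finset.mem_insert_of_mem (h q hq' hqk a ha.1)

theorem top_between {t : Tr} (hb : IsBST t) {Q : Finset ℕ} (h : Top Q t) {w y : ℕ}
    (hw : w ∈ Q) (hwk : w ∈ keys t) (hy : y ∈ keys t) (hyQ : y ∉ Q) :
    ∃ v ∈ anc y t, v ∈ Q ∧ Btw w y v := by
  obtain ⟨v, hv, b1, b2, b3⟩ := lca t hb w hwk y hy
  have hvQ : v ∈ Q := by
    rcases b2 with e | ⟨e, β, e2, _⟩
    · rw [← e]; exact hw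
    · exact h w hw hwk v (by rw [e2]; simp)
  refine ⟨v, ?_, hvQ, b1⟩
  rcases b3 with e | ⟨e, β, e2, _⟩
  · exact absurd (e ▸ hvQ) hyQ
  · rw [e2]; simp

theorem top_side {t : Tr} (hb : IsBST t) {Q : Finset ℕ} (h : Top Q t) {q y a : ℕ}
    (hq : q ∈ Q) (hqk : q ∈ keys t) (hy : y ∈ keys t) (ha : a ∈ anc y t) (haQ : a ∉ Q)
    (_hyq : y ≠ q) : a ≠ q ∧ (a < q ↔ y < q) := by
  obtain ⟨v, hv, b1, b2, b3⟩ := lca t hb q hqk y hy
  have hne : a ≠ q := fun e => haQ (e ▸ hq)
  have hup : a ∈ anc v t → False := by
    intro hav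
    refine haQ (h q hq hqk a ?_)
    rcases b2 with e | ⟨e, β, e2, _⟩
    · rw [e]; exact hav
    · rw [e2]; simp [hav]
  refine ⟨hne, ?_⟩
  rcases b3 with e | ⟨e, β, e2, hs⟩
  · rw [e] at ha; exact absurd ha hup
  · rw [e2] at ha
    simp only [List.mem_append, List.mem_cons] at ha
    rcases ha with ha | ha | ha
    · exact absurd ha hup
    · exfalso
      rcases b2 with e' | ⟨e', β', e3, _⟩
      · exact haQ (by rw [ha, ← e']; exact hq)
      · exact haQ (h q hq hqk a (by rw [e3, ha]; simp))
    · have := hs a ha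
      unfold Btw at b1
      omega

end Run7.h471.Spl
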