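import Pool.Agent.Run7.h471.Spl.Main

set_option autoImplicit false

/-! The factor `log k` is necessary. -/

namespace Run7.h471.Spl

open Pool.Agent.H581R2.Splay Pool.Agent.TH22.SP Tr

/-- a deep key -/
theorem deep : ∀ (t : Tr), t ≠ nil → ∃ x ∈ keys t, IsBST t → size t + 1 ≤ 2 ^ (dep x t + 1) := by
  intro t
  induction t with
  | nil => intro h; exact absurd rfl h
  | node a l r ihl ihr =>
    intro _
    by_cases h0 : size l = 0 ∧ size r = 0
    · refine ⟨a, by simp [keys], fun _ => ?_⟩
      rw [dep_a]; simp only [size]; omega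
    · rcases le_total (size r) (size l) with h | h
      · have hl : l ≠ nil := by
          rintro rfl
          exact h0 ⟨rfl, Nat.le_zero.1 h⟩
        obtain ⟨x, hx, hd⟩ := ihl hl
        refine ⟨x, by simp [keys, hx], fun hb => ?_⟩
        obtain ⟨g1, g2, g3, g4⟩ := bst_node hb
        rw [dep_l (g3 x hx), pow_succ]
        have := hd g1
        simp only [size]; omega
      · have hr : r ≠ nil := by
          rintro rfl
          exact h0 ⟨Nat.le_zero.1 h, rfl⟩
        obtain ⟨x, hx, hd⟩ := ihr hr
        refine ⟨x, by simp [keys, hx], fun hb => ?_⟩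
        obtain ⟨g1, g2, g3, g4⟩ := bst_node hb
        rw [dep_r (g4 x hx), pow_succ]
        have := hd g2
        simp only [size]; omega

/-- the adversary requests the deepest key of the splay tree -/
theorem adversary {k γ : ℕ} : ∀ (m : ℕ) (G : ℕ → ℕ) (S O : Tr) (Q : Finset ℕ), S ≠ nil →
    IsBST O → keys S = keys O → (keys O).length = k → Top Q O → Q ⊆ (keys O).toFinset →
    (∀ z ∈ Q, G z = γ) →
    ∃ (X : List ℕ) (G' : ℕ → ℕ) (T' : Tr) (c : ℕ), X.length = m ∧ (∀ x ∈ X, x ∈ keys O) ∧
      Phase γ G O X G' T' c ∧ c ≤ m + k * (k - Q.card) ∧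
      (m : ℝ) * Real.logb 2 ((k : ℝ) + 1) ≤ (costSplay S X : ℝ) := by
  intro m
  induction m with
  | zero =>
    intro G S O Q _ _ _ _ _ _ _
    exact ⟨[], G, O, 0, rfl, by simp, Phase.nil G O, by omega, by simp [costSplay]⟩
  | succ m ih =>
    intro G S O Q hne hb hS hlen htop hsub hG
    have hbS : IsBST S := by unfold IsBST; rw [hS]; exact hb
    have hsz : size S = k := by rw [size_eq, hS, hlen]
    obtain ⟨x, hxS, hd⟩ := deep S hne
    have hx : x ∈ keys O := by rw [← hS]; exact hxS
    have hd' := hd hbS
    rw [hsz] at hd'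
    have hlog : Real.logb 2 ((k : ℝ) + 1) ≤ ((1 + dep x S : ℕ) : ℝ) := by
      rw [Real.logb_le_iff_le_rpow (by norm_num) (by positivity), Real.rpow_natCast]
      rw [Nat.add_comm 1]
      exact_mod_cast hd'
    have hkS : keys (splay x S) = keys O := by rw [splay_keys hbS hxS, hS]
    have hne' : splay x S ≠ nil := by
      obtain ⟨l, r, h⟩ := splay_root x S
      rw [h]; simp
    have hkO := (toRoot_spec x O hb hx).2
    have hbO := toRoot_bst hb hx
    have htop' := top_toRoot hb hx htop
    have e2 : ∀ X : List ℕ, (costSplay S (x :: X) : ℝ) = ((1 + dep x S : ℕ) : ℝ) +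
        (costSplay (splay x S) X : ℝ) := by
      intro X; simp only [costSplay]; push_cast; ring
    by_cases hxQ : x ∈ Q
    · obtain ⟨X, G', T', c, c1, c2, c3, c4, c5⟩ := ih G (splay x S) O Q hne' hb hkS hlen htop hsub hG
      have hblk : blk G x O ≤ 1 := by
        unfold blk
        refine le_trans (Finset.card_le_card (t := {γ}) ?_) (by simp)
        intro g hg
        rw [List.mem_toFinset, List.mem_map] at hg
        obtain ⟨z, hz, e⟩ := hg
        rw [Finset.mem_singleton, ← e]
        rcases List.mem_cons.1 hz with h | h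
        · rw [h]; exact hG x hxQ
        · exact hG z (htop x hxQ hx z h)
      refine ⟨x :: X, G', T', blk G x O + c, by simp [c1], ?_, Phase.leave _ _ _ _ _ _ _ c3, by omega, ?_⟩
      · intro y hy
        rcases List.mem_cons.1 hy with h | h
        · rw [h]; exact hx
        · exact c2 y h
      · rw [e2]; push_cast at hlog ⊢; linarith
    · have hins : insert x Q ⊆ (keys O).toFinset := by
        intro a ha
        rcases Finset.mem_insert.1 ha with h | h
        · rw [h, List.mem_toFinset]; exact hx
        · exact hsub h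
      obtain ⟨X, G', T', c, c1, c2, c3, c4, c5⟩ := ih (fun z => if z = x then γ else G z)
        (splay x S) (toRoot x O) (insert x Q) hne' hbO
        (by rw [hkS, hkO]) (by rw [hkO]; exact hlen) htop' (by rw [hkO]; exact hins) (by
          intro z hz
          by_cases e : z = x
          · simp [e]
          · rcases Finset.mem_insert.1 hz with h | h
            · exact absurd h e
            · simp [e, hG z h])
      have hcard : Q.card + 1 ≤ k := by
        rw [← Finset.card_insert_of_notMem hxQ, ← hlen]
        exact le_trans (Finset.card_le_card hins) (List.toFinset_card_le _)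
      rw [Finset.card_insert_of_notMem hxQ] at c4
      have hdep : blk G x O ≤ 1 + k := by
        have h1 := dep_le_size x O
        rw [size_eq, hlen] at h1
        have h2 := blk_le G x O
        omega
      refine ⟨x :: X, G', T', blk G x O + c, by simp [c1], ?_, Phase.move _ _ _ _ _ _ _ c3, ?_, ?_⟩
      · intro y hy
        rcases List.mem_cons.1 hy with h | h
        · rw [h]; exact hx
        · rw [← hkO]; exact c2 y h
      · have e : k * (k - Q.card) = k * (k - (Q.card + 1)) + k := by
          have : k - Q.card = (k - (Q.card + 1)) + 1 := by omega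
          rw [this]; ring
        omega
      · rw [e2]; push_cast at hlog ⊢; linarith

theorem low {k : ℕ} (hk : 1 ≤ k) {a : ℝ} {f : ℕ → ℝ}
    (h : ∀ (T : Tr) (X : List ℕ) (c : ℕ), IsBST T → (∀ x ∈ X, x ∈ keys T) → Exec k id T X c →
      (costSplay T X : ℝ) ≤ a * c + f (keys T).length) : Real.logb 2 ((k : ℝ) + 1) ≤ a := by
  have hb : IsBST (path 1 k) := by
    unfold IsBST
    rw [keys_path]
    exact List.pairwise_lt_range'
  have hlen : (keys (path 1 k)).length = k := by rw [keys_path]; simp
  have hne : path 1 k ≠ nil := by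
    intro e
    rw [e] at hlen
    simp only [keys, List.length_nil] at hlen; omega
  have key : ∀ m : ℕ, (m : ℝ) * (Real.logb 2 ((k : ℝ) + 1) - a) ≤ |a| * (k * k : ℝ) + f k := by
    intro m
    obtain ⟨X, G', T', c, c1, c2, c3, c4, c5⟩ := adversary (k := k) (γ := 0) m id (path 1 k)
      (path 1 k) ∅ hne hb rfl hlen (by intro q hq; simp at hq) (by simp) (by simp)
    have hsub := phase_sub c3
    have hk' := phase_keys c3 hb c2
    have hE : Exec k id (path 1 k) X c := by
      have := Exec.phase (k := k) 0 id G' (path 1 k) T' X [] c 0 (by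
          intro z hz
          rw [keys_path, List.mem_range'_1] at hz
          simp only [id]; omega) c3 (by
          refine le_trans List.countP_le_length ?_
          rw [hk', hlen]) (Exec.nil G' T')
      simpa using this
    have h1 := h (path 1 k) X c hb c2 hE
    rw [hlen] at h1
    have h2 : X.length ≤ c := hsub.2.2
    rw [c1] at h2
    rw [Finset.card_empty, Nat.sub_zero] at c4
    have h3 : (m : ℝ) ≤ c := by exact_mod_cast h2
    have h4 : (c : ℝ) ≤ m + k * k := by exact_mod_cast c4
    have h5 : a * ((c : ℝ) - m) ≤ |a| * (k * k : ℝ) := by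
      calc a * ((c : ℝ) - m) ≤ |a| * ((c : ℝ) - m) :=
            mul_le_mul_of_nonneg_right (le_abs_self a) (by linarith)
        _ ≤ |a| * (k * k : ℝ) := mul_le_mul_of_nonneg_left (by linarith) (abs_nonneg a)
    nlinarith
  by_contra hcon
  push Not at hcon
  have hpos : 0 < Real.logb 2 ((k : ℝ) + 1) - a := by linarith
  obtain ⟨m, hm⟩ := exists_nat_gt ((|a| * (k * k : ℝ) + f k) / (Real.logb 2 ((k : ℝ) + 1) - a))
  rw [div_lt_iff₀ hpos] at hm
  have := key m
  linarith

end Run7.h471.Spl
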