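import Pool.Agent.Run7.h471.Spl.Run

set_option autoImplicit false

/-! The comparison of splaying with executions of this kind. -/

namespace Run7.h471.Spl

open Pool.Agent.H581R2.Splay Pool.Agent.TH22.SP Tr

theorem costSplay_append : ∀ (X Y : List ℕ) (S : Tr),
    costSplay S (X ++ Y) = costSplay S X + costSplay (after' S X) Y := by
  intro X
  induction X with
  | nil => intro Y S; simp [costSplay, after']
  | cons x X ih =>
    intro Y S
    rw [List.cons_append]
    simp only [costSplay]
    rw [ih]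
    have : after' S (x :: X) = after' (splay x S) X := rfl
    rw [this]
    omega

theorem phase_keys {γ : ℕ} {G G' : ℕ → ℕ} {T T' : Tr} {X : List ℕ} {c : ℕ}
    (h : Phase γ G T X G' T' c) :
    IsBST T → (∀ x ∈ X, x ∈ keys T) → keys T' = keys T := by
  induction h with
  | nil G T => intro _ _; rfl
  | rotate G G' T T1 T' X c hr _ ih =>
    intro hb hX
    have hk := brot_keys hr
    rw [ih (by unfold IsBST; rw [hk]; exact hb) (by rw [hk]; exact hX), hk]
  | leave G G' T T' x X c _ ih =>
    intro hb hX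
    exact ih hb (fun y hy => hX y (by simp [hy]))
  | move G G' T T' x X c _ ih =>
    intro hb hX
    have hx : x ∈ keys T := hX x (by simp)
    have hk := (toRoot_spec x T hb hx).2
    rw [ih (toRoot_bst hb hx) (by rw [hk]; exact fun y hy => hX y (by simp [hy])), hk]

/-- the number of keys in the current block -/
theorem card_le {L γ : ℕ} {G G' : ℕ → ℕ} {Q : Finset ℕ} {O R S : Tr} {H : List ℕ}
    (h : St L γ G Q O R S H) (hG : ∀ z, G z = γ → G' z = γ) :
    Q.card ≤ (keys O).countP (fun z => decide (G' z = γ)) := by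
  rw [List.countP_eq_length_filter]
  refine le_trans (Finset.card_le_card ?_) (List.toFinset_card_le _)
  intro q hq
  rw [List.mem_toFinset, List.mem_filter]
  have := h.sub q hq
  exact ⟨this, by simpa using hG q ((h.hQ q this).1 hq)⟩

/-- the amortised cost of a request -/
theorem step_pot {k γ M : ℕ} {G : ℕ → ℕ} {Q : Finset ℕ} {O R S : Tr} {H : List ℕ}
    (h : St (Nat.log 2 k + 1) γ G Q O R S H) (hQ : Q.card ≤ k) (hM : (keys O).length ≤ M)
    {x : ℕ} (hx : x ∈ keys O) :
    ((1 + dep x S : ℕ) : ℝ) + Pot M (fun y => lev Q y R) Q (splay x S) ≤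
      Pot M (fun y => lev Q y R) Q S +
        (166 / 10) * ((Nat.log 2 k + 1 : ℕ) : ℝ) * (blk G x O : ℝ) := by
  have hxS : x ∈ keys S := by rw [h.kS]; exact hx
  have a1 := access_pot (M := M) (f := fun y => lev Q y R) (Q := Q) h.bS hxS
    (fun y _ => lev_le_M h hM y) (tie_of h)
  have a2 := lev_bound h hx
  have a3 := log_bound hQ
  have a2' : (lev Q x R : ℝ) ≤ ((Nat.log 2 k + 1 : ℕ) : ℝ) * (blk G x O : ℝ) := by
    exact_mod_cast a2
  have hL : (1 : ℝ) ≤ ((Nat.log 2 k + 1 : ℕ) : ℝ) := by
    push_cast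
    have : (0 : ℝ) ≤ (Nat.log 2 k : ℝ) := by positivity
    linarith
  have hd : (1 : ℝ) ≤ (blk G x O : ℝ) := by exact_mod_cast blk_pos G x O
  have e1 : ((1 + dep x S : ℕ) : ℝ) = 1 + (dep x S : ℝ) := by push_cast; ring
  rw [e1]
  set L : ℝ := ((Nat.log 2 k + 1 : ℕ) : ℝ) with hLdef
  set d : ℝ := (blk G x O : ℝ) with hddef
  have h1 : L ≤ L * d := by nlinarith
  have h2 : 1 ≤ L * d := by linarith
  have h3 : (dep x S : ℝ) + Pot M (fun y => lev Q y R) Q (splay x S) ≤
      Pot M (fun y => lev Q y R) Q S + 6 * (L * d) + 12 * (7 / 10 * L) + 1 := by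
    linarith
  nlinarith

theorem phase_run {k M γ : ℕ} {G G' : ℕ → ℕ} {O O' : Tr} {X : List ℕ} {c : ℕ}
    (hp : Phase γ G O X G' O' c) : ∀ (Q : Finset ℕ) (R S : Tr) (H : List ℕ),
    St (Nat.log 2 k + 1) γ G Q O R S H → (keys O).countP (fun z => decide (G' z = γ)) ≤ k →
    (∀ x ∈ X, x ∈ keys O) → (keys O).length ≤ M →
    ∃ (Q' : Finset ℕ) (R' : Tr),
      St (Nat.log 2 k + 1) γ G' Q' O' R' (after' S X) (X.reverse ++ H) ∧
      (costSplay S X : ℝ) + Pot M (fun y => lev Q' y R') Q' (after' S X) ≤
        Pot M (fun y => lev Q y R) Q S + 20 * ((Nat.log 2 k + 1 : ℕ) : ℝ) * (c : ℝ) := by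
  induction hp with
  | nil G T =>
    intro Q R S H h _ _ _
    refine ⟨Q, R, by simpa [after'] using h, ?_⟩
    simp [costSplay, after']
  | rotate G G' T T1 T' X c hr _ ih =>
    intro Q R S H h hk hX hM
    have hkk := brot_keys hr
    exact ih Q R S H (st_rot h hr) (by rw [hkk]; exact hk) (by rw [hkk]; exact hX)
      (by rw [hkk]; exact hM)
  | leave G G' T T' x X c hp ih =>
    intro Q R S H h hk hX hM
    have hx : x ∈ keys T := hX x (by simp)
    obtain ⟨Q', R', h1, h2⟩ := ih Q R (splay x S) (x :: H) (st_leave h hx) hk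
      (fun y hy => hX y (by simp [hy])) hM
    have hQ : Q.card ≤ k := le_trans (card_le h (phase_sub hp).1) hk
    have h3 := step_pot h hQ hM hx
    refine ⟨Q', R', ?_, ?_⟩
    · have e : (x :: X).reverse ++ H = X.reverse ++ (x :: H) := by simp
      rw [e]; exact h1
    · have e1 : after' S (x :: X) = after' (splay x S) X := rfl
      rw [e1]
      have e2 : (costSplay S (x :: X) : ℝ) = ((1 + dep x S : ℕ) : ℝ) +
          (costSplay (splay x S) X : ℝ) := by
        simp only [costSplay]; push_cast; ring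
      rw [e2]
      have e3 : ((blk G x T + c : ℕ) : ℝ) = (blk G x T : ℝ) + (c : ℝ) := by
        push_cast; ring
      rw [e3]
      have hL : (0 : ℝ) ≤ ((Nat.log 2 k + 1 : ℕ) : ℝ) := by positivity
      have hd : (0 : ℝ) ≤ (blk G x T : ℝ) := by positivity
      have h4 : 0 ≤ ((Nat.log 2 k + 1 : ℕ) : ℝ) * (blk G x T : ℝ) := mul_nonneg hL hd
      nlinarith
  | move G G' T T' x X c hp ih =>
    intro Q R S H h hk hX hM
    have hx : x ∈ keys T := hX x (by simp)
    have hxR : x ∈ keys R := by rw [h.kR]; exact hx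
    have hxS : x ∈ keys S := by rw [h.kS]; exact hx
    have hkT := (toRoot_spec x T h.bst hx).2
    obtain ⟨Q', R', h1, h2⟩ := ih (insert x Q) (toRoot x R) (splay x S) (x :: H) (st_move h hx)
      (by rw [hkT]; exact hk)
      (by rw [hkT]; exact fun y hy => hX y (by simp [hy])) (by rw [hkT]; exact hM)
    have hQ' : (insert x Q).card ≤ k := by
      refine le_trans (card_le (st_move h hx) (phase_sub hp).1) ?_
      rw [hkT]; exact hk
    have hQ : Q.card ≤ k := le_trans (Finset.card_le_card (Finset.subset_insert x Q)) hQ'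
    have h3 := step_pot h hQ hM hx
    obtain ⟨l, r, hlr⟩ := splay_root x S
    have hkS : keys (node x l r) = keys R := by
      rw [← hlr, splay_keys h.bS hxS, h.kS, h.kR]
    have hsz : size R ≤ M := by rw [size_eq, h.kR]; exact hM
    have h4 := move_pot (M := M) (Q := Q) h.bR hxR hkS hsz
    rw [← hlr] at h4
    have h5 := log_bound hQ'
    refine ⟨Q', R', ?_, ?_⟩
    · have e : (x :: X).reverse ++ H = X.reverse ++ (x :: H) := by simp
      rw [e]; exact h1
    · have e1 : after' S (x :: X) = after' (splay x S) X := rfl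
      rw [e1]
      have e2 : (costSplay S (x :: X) : ℝ) = ((1 + dep x S : ℕ) : ℝ) +
          (costSplay (splay x S) X : ℝ) := by
        simp only [costSplay]; push_cast; ring
      rw [e2]
      have e3 : ((blk G x T + c : ℕ) : ℝ) = (blk G x T : ℝ) + (c : ℝ) := by
        push_cast; ring
      rw [e3]
      have hL : (0 : ℝ) ≤ ((Nat.log 2 k + 1 : ℕ) : ℝ) := by positivity
      have hd : (1 : ℝ) ≤ (blk G x T : ℝ) := by exact_mod_cast blk_pos G x T
      have h6 : ((Nat.log 2 k + 1 : ℕ) : ℝ) ≤
          ((Nat.log 2 k + 1 : ℕ) : ℝ) * (blk G x T : ℝ) := by nlinarith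
      nlinarith

theorem countP_split (Q : Finset ℕ) (A : List ℕ) :
    A.length = A.countP (fun a => decide (a ∈ Q)) + A.countP (fun a => decide (a ∉ Q)) := by
  induction A with
  | nil => simp
  | cons a A ih =>
    simp only [List.length_cons, List.countP_cons, decide_eq_true_eq]
    by_cases h : a ∈ Q
    · simp only [h, if_true, not_true_eq_false, if_false]; omega
    · simp only [h, if_false, not_false_eq_true, if_true]; omega

/-- the end of a phase: the top part of the reference tree is balanced -/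
theorem end_phase {k γ M : ℕ} {G : ℕ → ℕ} {Q : Finset ℕ} {O R S : Tr} {H : List ℕ}
    (h : St (Nat.log 2 k + 1) γ G Q O R S H) (hQ : Q.card ≤ k) (hM : (keys O).length ≤ M) :
    ∃ R' : Tr, (∀ γ', (∀ z ∈ keys O, G z ≠ γ') → St (Nat.log 2 k + 1) γ' G ∅ O R' S H) ∧
      Pot M (fun y => lev ∅ y R') ∅ S ≤ Pot M (fun y => lev Q y R) Q S +
        2 * (((Nat.log 2 k + 1 : ℕ) : ℝ) * (ancs Q S : ℝ)) := by
  obtain ⟨R', hk, htop, hspec⟩ := reb Q _ R h.bR rfl h.top
  have hcount : (keys R).countP (fun a => decide (a ∈ Q)) ≤ k :=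
    le_trans (qc_le_card (bst_nodup h.bR)) hQ
  have hht : ht ((keys R).countP (fun a => decide (a ∈ Q))) ≤ Nat.log 2 k + 1 := by
    refine le_trans (ht_mono hcount) ?_
    unfold ht
    split_ifs <;> omega
  have hkR' : keys R' = keys O := by rw [hk, h.kR]
  have hbR' : IsBST R' := by unfold IsBST; rw [hkR']; exact h.bst
  have hlev : ∀ y ∈ keys O, lev ∅ y R' =
      (anc y R').countP (fun a => decide (a ∈ Q)) + lev Q y R := by
    intro y hy
    have hyR : y ∈ keys R := by rw [h.kR]; exact hy
    obtain ⟨p1, p2⟩ := hspec y hyR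
    rw [lev_empty, dep_eq_anc, countP_split Q]
    unfold lev
    rw [List.countP_eq_length_filter (p := fun a => decide (a ∉ Q)),
      List.countP_eq_length_filter (p := fun a => decide (a ∉ Q)), p1]
  have hcnt : ∀ y ∈ keys O, (anc y R').countP (fun a => decide (a ∈ Q)) ≤ Nat.log 2 k + 1 := by
    intro y hy
    have hyR : y ∈ keys R := by rw [h.kR]; exact hy
    exact le_trans (hspec y hyR).2 hht
  refine ⟨R', fun γ' hfresh => ?_, ?_⟩
  · refine ⟨h.bst, hkR', h.kS, ?_, by simp, ?_, ?_, ?_, h.his⟩
    · intro z hz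
      simp [hfresh z hz]
    · intro q hq; simp at hq
    · intro y hy w hw
      have hyR : y ∈ keys R := by rw [h.kR]; exact hy
      obtain ⟨p1, p2⟩ := hspec y hyR
      by_cases hwQ : w ∈ Q
      · have hwO : w ∈ keys O := h.sub w hwQ
        have hwR : w ∈ keys R := by rw [h.kR]; exact hwO
        have gw : G w = γ := (h.hQ w hwO).1 hwQ
        by_cases hyQ : y ∈ Q
        · exact ⟨y, Or.inl rfl, by rw [gw, (h.hQ y hy).1 hyQ], by unfold Btw; omega⟩
        · obtain ⟨v, v1, v2, v3⟩ := top_between h.bR h.top hwQ hwR hyR hyQ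
          obtain ⟨z, z1, z2, z3⟩ := h.inv y hy v v1
          refine ⟨z, z1, by rw [z2, gw, (h.hQ v (h.sub v v2)).1 v2], ?_⟩
          unfold Btw at v3 z3 ⊢; omega
      · have hw' : w ∈ (anc y R).filter (fun a => decide (a ∉ Q)) := by
          rw [← p1, List.mem_filter]
          exact ⟨hw, by simpa using hwQ⟩
        exact h.inv y hy w (List.mem_filter.1 hw').1
    · intro y hy g _
      have hyR : y ∈ keys R := by rw [h.kR]; exact hy
      obtain ⟨p1, p2⟩ := hspec y hyR
      by_cases hg : g = γ
      · refine le_trans (le_of_eq ?_) (hcnt y hy)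
        refine List.countP_congr ?_
        intro a ha
        have haO : a ∈ keys O := by rw [← hkR']; exact anc_mem ha
        have := h.hQ a haO
        simp only [decide_eq_true_eq]
        rw [hg]; exact this.symm
      · refine le_trans (le_of_eq ?_) (h.ch y hy g hg)
        have e : ∀ A : List ℕ, (∀ a ∈ A, a ∈ keys O) → A.countP (fun a => decide (G a = g)) =
            (A.filter (fun a => decide (a ∉ Q))).countP (fun a => decide (G a = g)) := by
          intro A hA
          rw [List.countP_filter]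
          refine List.countP_congr ?_
          intro a ha
          simp only [Bool.and_eq_true, decide_eq_true_eq]
          constructor
          · intro hga
            exact ⟨hga, fun haQ => hg (by rw [← hga, (h.hQ a (hA a ha)).1 haQ])⟩
          · exact fun hh => hh.1
        rw [e (anc y R') (fun a ha => by rw [← hkR']; exact anc_mem ha),
          e (anc y R) (fun a ha => by rw [← h.kR]; exact anc_mem ha), p1]
  · have hM' : ∀ y, lev ∅ y R' ≤ M := by
      intro y
      have h1 := lev_le_dep ∅ y R'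
      have h2 := dep_le_size y R'
      rw [size_eq, hkR'] at h2
      omega
    have hs := phi_shift (M := M) (h := Nat.log 2 k + 1) (f := fun y => lev Q y R)
      (g := fun y => lev ∅ y R') (Q := Q) (K := keys S) (fun y _ => hM' y)
      (fun y _ => lev_le_M h hM y)
      (fun y hy => by
        rw [h.kS] at hy
        have a1 := hlev y hy
        have a2 := hcnt y hy
        constructor <;> omega)
      (fun y hy y' hy' hfree => by
        rw [h.kS] at hy hy' hfree
        have a1 := hlev y hy
        have a2 := hlev y' hy'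
        have a3 := top_count hbR' htop (k := y) (k' := y') (by rw [hkR']; exact hy)
          (by rw [hkR']; exact hy') (by rw [hkR']; exact hfree)
        omega) S [] [] (by rw [List.nil_append, List.append_nil]; exact h.bS) (by simp)
    have hs' : (Phi M (fun y => lev ∅ y R') S : ℝ) ≤ (Phi M (fun y => lev Q y R) S : ℝ) +
        ((Nat.log 2 k + 1 : ℕ) : ℝ) * (ancs Q S : ℝ) := by exact_mod_cast hs
    have hl := lam_nonneg Q S
    unfold Pot
    rw [lam_empty]
    linarith

theorem ancs_empty (t : Tr) : ancs ∅ t = 0 :=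
  ancs_not_meets (by rintro ⟨k, _, hk⟩; simp at hk)

theorem ancs_mono {E F : Finset ℕ} (h : E ⊆ F) : ∀ t : Tr, ancs E t ≤ ancs F t := by
  intro t
  induction t with
  | nil => exact le_refl _
  | node a l r ihl ihr =>
    by_cases hE : Meets E (node a l r)
    · have hF : Meets F (node a l r) := by
        obtain ⟨k, h1, h2⟩ := hE
        exact ⟨k, h1, h h2⟩
      rw [ancs_of_meets hE, ancs_of_meets hF]; omega
    · rw [ancs_not_meets hE]; omega

/-- the keys moved in a phase have few ancestors in the splay tree at its end -/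
theorem ancs_phase {Q : Finset ℕ} {X H : List ℕ} {S : Tr} (hQ : Q ⊆ X.toFinset)
    (hi : Inv (X.reverse ++ H) S) : ancs Q S ≤ 2 * X.length := by
  rcases X with _ | ⟨x, X⟩
  · have : Q = ∅ := by simpa using hQ
    rw [this, ancs_empty]; omega
  · have h1 := clos_bound hi (n := (x :: X).length) (a := x)
      (by rw [List.take_append_of_le_length (by simp), List.take_of_length_le (by simp)]; simp)
    have e : ((x :: X).reverse ++ H).take (x :: X).length = (x :: X).reverse := by
      rw [List.take_append_of_le_length (by simp), List.take_of_length_le (by simp)]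
    rw [e] at h1
    have e2 : ((x :: X).reverse).toFinset = (x :: X).toFinset := by
      ext a; simp
    rw [e2] at h1
    have h2 := ancs_mono hQ S
    have h3 := List.toFinset_card_le (x :: X)
    omega

theorem exec_run {k M : ℕ} {G : ℕ → ℕ} {O : Tr} {X : List ℕ} {c : ℕ} (he : Exec k G O X c) :
    ∀ (R S : Tr) (H : List ℕ),
    (∀ γ, (∀ z ∈ keys O, G z ≠ γ) → St (Nat.log 2 k + 1) γ G ∅ O R S H) →
    (∀ x ∈ X, x ∈ keys O) → (keys O).length ≤ M →
    (costSplay S X : ℝ) ≤
      Pot M (fun y => lev ∅ y R) ∅ S + 24 * ((Nat.log 2 k + 1 : ℕ) : ℝ) * (c : ℝ) := by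
  induction he with
  | nil G T =>
    intro R S H _ _ _
    have := pot_nonneg M (fun y => lev ∅ y R) ∅ S
    simpa [costSplay] using this
  | phase γ G G' T T' X Y c d hγ hp hcnt _ ih =>
    intro R S H h hX hM
    have h := h γ hγ
    have hk' := phase_keys hp h.bst (fun x hx => hX x (by simp [hx]))
    obtain ⟨Q, R', h1, h2⟩ := phase_run (k := k) (M := M) hp ∅ R S H h (by rw [← hk']; exact hcnt)
      (fun x hx => hX x (by simp [hx])) hM
    have hM' : (keys T').length ≤ M := by rw [hk']; exact hM
    have hQ : Q.card ≤ k := le_trans (card_le h1 (fun _ hz => hz)) hcnt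
    obtain ⟨R'', h3, h4⟩ := end_phase (M := M) h1 hQ hM'
    have h5 := ih R'' (after' S X) (X.reverse ++ H) h3
      (by rw [hk']; exact fun x hx => hX x (by simp [hx])) hM'
    have hsub := phase_sub hp
    have hQX : Q ⊆ X.toFinset := by
      intro q hq
      have hqT : q ∈ keys T' := h1.sub q hq
      rcases hsub.2.1 q ((h1.hQ q hqT).1 hq) with h | h
      · exact absurd h (hγ q (by rw [← hk']; exact hqT))
      · simpa using h
    have h6 := ancs_phase (Q := Q) hQX h1.his
    have h7 : ancs Q (after' S X) ≤ 2 * c := by have := hsub.2.2; omega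
    have h7' : (ancs Q (after' S X) : ℝ) ≤ 2 * (c : ℝ) := by exact_mod_cast h7
    have hL : (0 : ℝ) ≤ ((Nat.log 2 k + 1 : ℕ) : ℝ) := by positivity
    have h8 : ((Nat.log 2 k + 1 : ℕ) : ℝ) * (ancs Q (after' S X) : ℝ) ≤
        ((Nat.log 2 k + 1 : ℕ) : ℝ) * (2 * (c : ℝ)) := mul_le_mul_of_nonneg_left h7' hL
    have e1 : (costSplay S (X ++ Y) : ℝ) = (costSplay S X : ℝ) +
        (costSplay (after' S X) Y : ℝ) := by
      rw [costSplay_append]; push_cast; ring
    rw [e1]
    have e2 : ((c + d : ℕ) : ℝ) = (c : ℝ) + (d : ℝ) := by push_cast; ring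
    rw [e2]
    linarith

theorem main {k : ℕ} {G : ℕ → ℕ} {T : Tr} {X : List ℕ} {c : ℕ} (hb : IsBST T)
    (hX : ∀ x ∈ X, x ∈ keys T)
    (hG : ∀ y ∈ keys T, ∀ g, (anc y T).countP (fun a => decide (G a = g)) ≤ Nat.log 2 k + 1)
    (he : Exec k G T X c) : costSplay T X ≤ 24 * (Nat.log 2 k + 1) * c := by
  have hSt : ∀ γ, (∀ z ∈ keys T, G z ≠ γ) → St (Nat.log 2 k + 1) γ G ∅ T T T [] := by
    intro γ hγ
    refine ⟨hb, rfl, rfl, ?_, by simp, ?_, ?_, ?_, inv_nil _⟩
    · intro z hz
      simp [hγ z hz]
    · intro q hq; simp at hq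
    · intro y hy w hw
      exact ⟨w, Or.inr hw, rfl, by unfold Btw; omega⟩
    · intro y hy g _
      exact hG y hy g
  have h1 := exec_run (M := (keys T).length) he T T [] hSt hX (le_refl _)
  have h2 : Pot (keys T).length (fun y => lev ∅ y T) ∅ T = 0 := by
    unfold Pot
    have : (fun y => lev ∅ y T) = (fun y => dep y T) := by
      funext y; exact lev_empty y T
    rw [this, lam_empty, phi_self_zero T hb (by rw [size_eq])]
    simp
  rw [h2, zero_add] at h1
  exact_mod_cast h1

end Run7.h471.Spl
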