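import Pool.Agent.Run7.h471.Spl.Anc

set_option autoImplicit false

/-! Balancing the top part of a tree; rotations between two keys with the same label. -/

namespace Run7.h471.Spl

open Pool.Agent.H581R2.Splay Tr

theorem split_countP {p : ℕ → Bool} : ∀ (K : List ℕ) (i : ℕ), i < K.countP p →
    ∃ (A : List ℕ) (q : ℕ) (B : List ℕ), K = A ++ q :: B ∧ p q = true ∧ A.countP p = i := by
  intro K
  induction K with
  | nil => intro i h; simp at h
  | cons b K ih =>
    intro i h
    rw [List.countP_cons] at h
    by_cases hb : p b = true
    · rw [if_pos hb] at h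
      rcases Nat.eq_zero_or_pos i with h0 | h0
      · exact ⟨[], b, K, rfl, hb, by simp [h0]⟩
      · obtain ⟨A, q, B, e, h1, h2⟩ := ih (i - 1) (by omega)
        refine ⟨b :: A, q, B, by rw [e]; rfl, h1, ?_⟩
        rw [List.countP_cons, if_pos hb, h2]; omega
    · rw [if_neg hb] at h
      obtain ⟨A, q, B, e, h1, h2⟩ := ih i (by omega)
      refine ⟨b :: A, q, B, by rw [e]; rfl, h1, ?_⟩
      rw [List.countP_cons, if_neg hb, h2]; omega

theorem filter_lt_split {A B : List ℕ} {q : ℕ} (h : (A ++ q :: B).Pairwise (· < ·)) :
    (A ++ q :: B).filter (fun a => decide (a < q)) = A ∧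
      (A ++ q :: B).filter (fun a => decide (q < a)) = B := by
  rw [List.pairwise_append, List.pairwise_cons] at h
  obtain ⟨_, ⟨h2, _⟩, h3⟩ := h
  have hA : ∀ a ∈ A, a < q := fun a ha => h3 a ha q (by simp)
  constructor
  · rw [List.filter_append, List.filter_cons, if_neg (by simp)]
    have e1 : A.filter (fun a => decide (a < q)) = A := by
      rw [List.filter_eq_self]; intro a ha; simpa using hA a ha
    have e2 : B.filter (fun a => decide (a < q)) = [] := by
      rw [List.filter_eq_nil_iff]; intro a ha; have := h2 a ha; simp; omega
    rw [e1, e2]; simp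
  · rw [List.filter_append, List.filter_cons, if_neg (by simp)]
    have e1 : A.filter (fun a => decide (q < a)) = [] := by
      rw [List.filter_eq_nil_iff]; intro a ha; have := hA a ha; simp; omega
    have e2 : B.filter (fun a => decide (q < a)) = B := by
      rw [List.filter_eq_self]; intro a ha; simpa using h2 a ha
    rw [e1, e2]; simp

/-- the height bound -/
def ht (n : ℕ) : ℕ := if n = 0 then 0 else Nat.log 2 n + 1

theorem ht_mono {m n : ℕ} (h : m ≤ n) : ht m ≤ ht n := by
  unfold ht
  by_cases h1 : m = 0
  · rw [if_pos h1]; omega
  · rw [if_neg h1, if_neg (by omega)]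
    have := Nat.log_mono_right (b := 2) h
    omega

theorem ht_half {m n : ℕ} (hn : 0 < n) (h : m ≤ n / 2) : ht m + 1 ≤ ht n := by
  unfold ht
  rw [if_neg (show n ≠ 0 by omega)]
  by_cases h1 : m = 0
  · rw [if_pos h1]; omega
  · rw [if_neg h1]
    have h2 : Nat.log 2 m ≤ Nat.log 2 (n / 2) := Nat.log_mono_right h
    have h3 : Nat.log 2 (n / 2) = Nat.log 2 n - 1 := Nat.log_div_base 2 n
    have h4 : 1 ≤ Nat.log 2 n := Nat.log_pos (by omega) (by omega)
    omega

/-- a top part of a tree can be rearranged such that it has logarithmic depth -/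
theorem reb (Q : Finset ℕ) : ∀ (n : ℕ) (t : Tr), IsBST t →
    (keys t).countP (fun a => decide (a ∈ Q)) = n → Top Q t →
    ∃ t', keys t' = keys t ∧ Top Q t' ∧ ∀ y ∈ keys t,
      (anc y t').filter (fun a => decide (a ∉ Q)) = (anc y t).filter (fun a => decide (a ∉ Q)) ∧
      (anc y t').countP (fun a => decide (a ∈ Q)) ≤ ht n := by
  intro n
  induction n using Nat.strong_induction_on with
  | _ n ih =>
    intro t hb hn htop
    rcases Nat.eq_zero_or_pos n with h0 | h0
    · subst h0
      refine ⟨t, rfl, htop, fun y _ => ⟨rfl, ?_⟩⟩
      rw [List.countP_eq_zero] at hn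
      have : (anc y t).countP (fun a => decide (a ∈ Q)) = 0 := by
        rw [List.countP_eq_zero]
        intro a ha
        exact hn a (anc_mem ha)
      omega
    · obtain ⟨A, q, B, hK, hq, hA⟩ := split_countP (p := fun a => decide (a ∈ Q)) (keys t) (n / 2)
        (by omega)
      have hqQ : q ∈ Q := by simpa using hq
      have hqk : q ∈ keys t := by rw [hK]; simp
      obtain ⟨⟨l, r, hh⟩, hk⟩ := toRoot_spec q t hb hqk
      have hb2 : IsBST (node q l r) := by rw [← hh]; exact toRoot_bst hb hqk
      obtain ⟨hl, hr, g1, g2⟩ := bst_node hb2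
      rw [hh] at hk
      have hk' : keys l ++ q :: keys r = A ++ q :: B := by rw [← hK]; exact hk
      have hs : (A ++ q :: B).Pairwise (· < ·) := by rw [← hK]; exact hb
      have hs' : (keys l ++ q :: keys r).Pairwise (· < ·) := hb2
      have eA : keys l = A := by
        rw [← (filter_lt_split hs').1, hk', (filter_lt_split hs).1]
      have eB : keys r = B := by
        rw [← (filter_lt_split hs').2, hk', (filter_lt_split hs).2]
      have hcl : (keys l).countP (fun a => decide (a ∈ Q)) = n / 2 := by rw [eA, hA]
      have hcr : (keys r).countP (fun a => decide (a ∈ Q)) ≤ n / 2 := by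
        have : (keys t).countP (fun a => decide (a ∈ Q)) = n := hn
        rw [hK, List.countP_append, List.countP_cons, if_pos hq, hA] at this
        rw [eB]; omega
      have ancl : ∀ y, y < q → anc y (toRoot q t) = q :: anc y l := by
        intro y hy; rw [hh, anc_l hy]
      have ancr : ∀ y, q < y → anc y (toRoot q t) = q :: anc y r := by
        intro y hy; rw [hh, anc_r hy]
      have topl : Top Q l := by
        intro w hw hwk a ha
        have e := anc_toRoot q t hb hqk w (by have := g1 w hwk; omega)
        rw [ancl w (g1 w hwk)] at e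
        have e' := List.cons_injective e
        rw [e'] at ha
        refine htop w hw ?_ a (List.mem_filter.1 ha).1
        rw [← hk]; simp [keys, hwk]
      have topr : Top Q r := by
        intro w hw hwk a ha
        have e := anc_toRoot q t hb hqk w (by have := g2 w hwk; omega)
        rw [ancr w (g2 w hwk)] at e
        have e' := List.cons_injective e
        rw [e'] at ha
        refine htop w hw ?_ a (List.mem_filter.1 ha).1
        rw [← hk]; simp [keys, hwk]
      obtain ⟨l', kl, tl, pl⟩ := ih (n / 2) (by omega) l hl hcl topl
      obtain ⟨r', kr, tr, pr⟩ := ih _ (by omega) r hr rfl topr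
      have kk : keys (node q l' r') = keys t := by
        rw [← hk]; simp [keys, kl, kr]
      -- the ancestors outside of `Q`
      have out : ∀ y ∈ keys t, y ≠ q → (anc y t).filter (fun a => decide (a ∉ Q)) =
          ((anc y t).filter (fun a => decide (a ≠ q ∧ (a < q ↔ y < q)))).filter
            (fun a => decide (a ∉ Q)) := by
        intro y hy hyq
        rw [List.filter_filter]
        refine List.filter_congr ?_
        intro a ha
        by_cases haQ : a ∈ Q
        · simp [haQ]
        · have := top_side hb htop hqQ hqk hy ha haQ hyq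
          simp [haQ, this.1, this.2]
      refine ⟨node q l' r', kk, ?_, ?_⟩
      · intro w hw hwk a ha
        rcases lt_trichotomy w q with h | h | h
        · rw [anc_l h] at ha
          have hwl : w ∈ keys l' := by
            have : w ∈ keys (node q l r) := by rw [hk, ← kk]; exact hwk
            rw [kl]; exact mem_keys_l hb2 this h
          rcases List.mem_cons.1 ha with h' | h'
          · rw [h']; exact hqQ
          · exact tl w hw hwl a h'
        · subst h; rw [anc_a] at ha; simp at ha
        · rw [anc_r h] at ha
          have hwr : w ∈ keys r' := by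
            have : w ∈ keys (node q l r) := by rw [hk, ← kk]; exact hwk
            rw [kr]; exact mem_keys_r hb2 this h
          rcases List.mem_cons.1 ha with h' | h'
          · rw [h']; exact hqQ
          · exact tr w hw hwr a h'
      · intro y hy
        have hy2 : y ∈ keys (node q l r) := by rw [hk]; exact hy
        rcases lt_trichotomy y q with h | h | h
        · have hyl : y ∈ keys l := mem_keys_l hb2 hy2 h
          obtain ⟨p1, p2⟩ := pl y hyl
          have e := anc_toRoot q t hb hqk y (by omega)
          rw [ancl y h] at e
          have e' := List.cons_injective e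
          refine ⟨?_, ?_⟩
          · rw [anc_l h, List.filter_cons, if_neg (by simp [hqQ]), p1, e', ← out y hy (by omega)]
          · rw [anc_l h, List.countP_cons, if_pos hq]
            have := ht_half h0 (le_refl (n / 2))
            omega
        · subst h
          refine ⟨?_, ?_⟩
          · rw [anc_a]
            have : (anc y t).filter (fun a => decide (a ∉ Q)) = [] := by
              rw [List.filter_eq_nil_iff]
              intro a ha
              simpa using htop y hqQ hqk a ha
            rw [this]; rfl
          · rw [anc_a]; simp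
        · have hyr : y ∈ keys r := mem_keys_r hb2 hy2 h
          obtain ⟨p1, p2⟩ := pr y hyr
          have e := anc_toRoot q t hb hqk y (by omega)
          rw [ancr y h] at e
          have e' := List.cons_injective e
          refine ⟨?_, ?_⟩
          · rw [anc_r h, List.filter_cons, if_neg (by simp [hqQ]), p1, e', ← out y hy (by omega)]
          · rw [anc_r h, List.countP_cons, if_pos hq]
            have := ht_half h0 hcr
            omega

/-- `t'` arises from `t` by one rotation, of an edge between two keys with the same label -/
inductive BRot (G : ℕ → ℕ) : Tr → Tr → Prop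
  | right (a b : ℕ) (A B C : Tr) : G a = G b →
      BRot G (node a (node b A B) C) (node b A (node a B C))
  | left (a b : ℕ) (A B C : Tr) : G a = G b →
      BRot G (node b A (node a B C)) (node a (node b A B) C)
  | inl (a : ℕ) (L L' R : Tr) : BRot G L L' → BRot G (node a L R) (node a L' R)
  | inr (a : ℕ) (L R R' : Tr) : BRot G R R' → BRot G (node a L R) (node a L R')

theorem brot_keys {G : ℕ → ℕ} {t t' : Tr} (h : BRot G t t') : keys t' = keys t := by
  induction h with
  | right a b A B C _ => simp [keys]
  | left a b A B C _ => simp [keys]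
  | inl a L L' R _ ih => simp [keys, ih]
  | inr a L R R' _ ih => simp [keys, ih]

theorem brot_anc {G : ℕ → ℕ} {t t' : Tr} (h : BRot G t t') : IsBST t → ∀ y ∈ keys t,
    ∀ z ∈ anc y t, ∃ w, (w = y ∨ w ∈ anc y t') ∧ G w = G z ∧ Btw z y w := by
  induction h with
  | right a b A B C hG =>
    intro hb y hy z hz
    obtain ⟨g1, g2, g3, g4⟩ := bst_node hb
    obtain ⟨g5, g6, g7, g8⟩ := bst_node g1
    have gb : b < a := g3 b (by simp [keys])
    rcases lt_trichotomy y a with h | h | h
    · rcases lt_trichotomy y b with h' | h' | h'
      · rw [anc_l h, anc_l h'] at hz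
        rw [anc_l h']
        simp only [List.mem_cons] at hz ⊢
        rcases hz with hz | hz | hz
        · refine ⟨b, Or.inr (Or.inl rfl), by rw [hz, hG], ?_⟩
          unfold Btw; omega
        · exact ⟨z, Or.inr (Or.inl hz), rfl, by unfold Btw; omega⟩
        · exact ⟨z, Or.inr (Or.inr hz), rfl, by unfold Btw; omega⟩
      · subst h'
        rw [anc_l h, anc_a] at hz
        simp only [List.mem_cons, List.not_mem_nil, or_false] at hz
        refine ⟨y, Or.inl rfl, by rw [hz, hG], ?_⟩
        unfold Btw; omega
      · rw [anc_l h, anc_r h'] at hz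
        rw [anc_r h', anc_l h]
        simp only [List.mem_cons] at hz ⊢
        refine ⟨z, ?_, rfl, by unfold Btw; omega⟩
        tauto
    · subst h; rw [anc_a] at hz; simp at hz
    · rw [anc_r h] at hz
      rw [anc_r (show b < y by omega), anc_r h]
      simp only [List.mem_cons] at hz ⊢
      refine ⟨z, ?_, rfl, by unfold Btw; omega⟩
      tauto
  | left a b A B C hG =>
    intro hb y hy z hz
    obtain ⟨g1, g2, g3, g4⟩ := bst_node hb
    obtain ⟨g5, g6, g7, g8⟩ := bst_node g2
    have gb : b < a := g4 a (by simp [keys])
    rcases lt_trichotomy y b with h | h | h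
    · rw [anc_l h] at hz
      rw [anc_l (show y < a by omega), anc_l h]
      simp only [List.mem_cons] at hz ⊢
      refine ⟨z, ?_, rfl, by unfold Btw; omega⟩
      tauto
    · subst h; rw [anc_a] at hz; simp at hz
    · rcases lt_trichotomy y a with h' | h' | h'
      · rw [anc_r h, anc_l h'] at hz
        rw [anc_l h', anc_r h]
        simp only [List.mem_cons] at hz ⊢
        refine ⟨z, ?_, rfl, by unfold Btw; omega⟩
        tauto
      · subst h'
        rw [anc_r h, anc_a] at hz
        simp only [List.mem_cons, List.not_mem_nil, or_false] at hz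
        refine ⟨y, Or.inl rfl, by rw [hz, hG], ?_⟩
        unfold Btw; omega
      · rw [anc_r h, anc_r h'] at hz
        rw [anc_r h']
        simp only [List.mem_cons] at hz ⊢
        rcases hz with hz | hz | hz
        · refine ⟨a, Or.inr (Or.inl rfl), by rw [hz, hG], ?_⟩
          unfold Btw; omega
        · exact ⟨z, Or.inr (Or.inl hz), rfl, by unfold Btw; omega⟩
        · exact ⟨z, Or.inr (Or.inr hz), rfl, by unfold Btw; omega⟩
  | inl a L L' R _ ih =>
    intro hb y hy z hz
    rcases lt_trichotomy y a with h | h | h
    · rw [anc_l h] at hz ⊢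
      rcases List.mem_cons.1 hz with hz | hz
      · exact ⟨z, Or.inr (by simp [hz]), rfl, by unfold Btw; omega⟩
      · obtain ⟨w, w1, w2, w3⟩ := ih (bst_node hb).1 y (mem_keys_l hb hy h) z hz
        refine ⟨w, ?_, w2, w3⟩
        rcases w1 with w1 | w1
        · exact Or.inl w1
        · exact Or.inr (by simp [w1])
    · subst h; rw [anc_a] at hz; simp at hz
    · rw [anc_r h] at hz ⊢
      exact ⟨z, Or.inr hz, rfl, by unfold Btw; omega⟩
  | inr a L R R' _ ih =>
    intro hb y hy z hz
    rcases lt_trichotomy y a with h | h | h
    · rw [anc_l h] at hz ⊢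
      exact ⟨z, Or.inr hz, rfl, by unfold Btw; omega⟩
    · subst h; rw [anc_a] at hz; simp at hz
    · rw [anc_r h] at hz ⊢
      rcases List.mem_cons.1 hz with hz | hz
      · exact ⟨z, Or.inr (by simp [hz]), rfl, by unfold Btw; omega⟩
      · obtain ⟨w, w1, w2, w3⟩ := ih (bst_node hb).2.1 y (mem_keys_r hb hy h) z hz
        refine ⟨w, ?_, w2, w3⟩
        rcases w1 with w1 | w1
        · exact Or.inl w1
        · exact Or.inr (by simp [w1])

end Run7.h471.Spl
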