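import Pool.Agent.Run7.h471.Spl.Acc
import Pool.Agent.Run7.h471.Spl.Reb
import Pool.Agent.TH22.SP.Clos

set_option autoImplicit false

/-! The potential. -/

namespace Run7.h471.Spl

open Pool.Agent.H581R2.Splay Pool.Agent.TH22.SP Tr

/-- least level in a list of keys, capped by `M` -/
def mnl (M : ℕ) (f : ℕ → ℕ) : List ℕ → ℕ
  | [] => M
  | a :: A => min (f a) (mnl M f A)

theorem mnl_le_M {M : ℕ} {f : ℕ → ℕ} (A : List ℕ) : mnl M f A ≤ M := by
  induction A with
  | nil => simp [mnl]
  | cons a A ih => simp only [mnl]; omega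

theorem mnl_append {M : ℕ} {f : ℕ → ℕ} (A B : List ℕ) :
    mnl M f (A ++ B) = min (mnl M f A) (mnl M f B) := by
  induction A with
  | nil =>
    have := mnl_le_M (M := M) (f := f) B
    simp only [List.nil_append, mnl]; omega
  | cons a A ih => simp only [List.cons_append, mnl, ih]; omega

theorem mn_eq {M : ℕ} {f : ℕ → ℕ} (t : Tr) : mn M f t = mnl M f (keys t) := by
  induction t with
  | nil => rfl
  | node a l r ihl ihr => simp only [mn, keys, mnl_append, mnl, ihl, ihr]; omega

theorem mnl_le {M : ℕ} {f : ℕ → ℕ} {A : List ℕ} {k : ℕ} (h : k ∈ A) : mnl M f A ≤ f k := by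
  induction A with
  | nil => simp at h
  | cons a A ih =>
    simp only [mnl]
    rcases List.mem_cons.1 h with h | h
    · subst h; omega
    · have := ih h; omega

theorem mnl_att {M : ℕ} {f : ℕ → ℕ} {A : List ℕ} (hM : ∀ k ∈ A, f k ≤ M) (hne : A ≠ []) :
    ∃ k ∈ A, f k = mnl M f A := by
  induction A with
  | nil => exact absurd rfl hne
  | cons a A ih =>
    simp only [mnl]
    by_cases h : A = []
    · subst h
      have := hM a (by simp)
      exact ⟨a, by simp, by simp only [mnl]; omega⟩
    · obtain ⟨k, hk, e⟩ := ih (fun k hk => hM k (by simp [hk])) h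
      by_cases h2 : f a ≤ mnl M f A
      · exact ⟨a, by simp, by omega⟩
      · exact ⟨k, by simp [hk], by omega⟩

/-- the number of keys of `Q` in a list -/
def qc (Q : Finset ℕ) (A : List ℕ) : ℕ := A.countP (fun a => decide (a ∈ Q))

/-- the rank -/
noncomputable def Rk (M : ℕ) (f : ℕ → ℕ) (Q : Finset ℕ) (A : List ℕ) : ℝ :=
  4 * Real.log (1 + (qc Q A : ℝ)) - 2 * (mnl M f A : ℝ)

/-- ties occur only around keys of `Q` -/
def TieQ (f : ℕ → ℕ) (Q : Finset ℕ) (K : List ℕ) : Prop :=
  ∀ k ∈ K, ∀ k' ∈ K, k < k' → f k = f k' →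
    (∃ j ∈ K, k < j ∧ j < k' ∧ f j < f k) ∨ ∃ q ∈ K, q ∈ Q ∧ k ≤ q ∧ q ≤ k'

theorem infix_conv {K L : List ℕ} (hs : K.Pairwise (· < ·)) (h : L <:+: K) {k k' j : ℕ}
    (hk : k ∈ L) (hk' : k' ∈ L) (hj : j ∈ K) (h1 : k ≤ j) (h2 : j ≤ k') : j ∈ L := by
  obtain ⟨A, C, rfl⟩ := h
  rw [List.pairwise_append, List.pairwise_append] at hs
  obtain ⟨⟨_, _, hAB⟩, _, hC⟩ := hs
  simp only [List.mem_append] at hj
  rcases hj with (hj | hj) | hj
  · have := hAB j hj k hk; omega
  · exact hj
  · have := hC k' (by simp [hk']) j hj; omega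

theorem log_prod {b c l : ℕ} (h : b + c ≤ l) (hl : 1 ≤ l) :
    Real.log (1 + (b : ℝ)) + Real.log (1 + (c : ℝ)) ≤ 2 * Real.log (1 + (l : ℝ)) - 1 / 2 := by
  have hb : (0 : ℝ) ≤ b := by positivity
  have hc : (0 : ℝ) ≤ c := by positivity
  have hl' : (1 : ℝ) ≤ l := by exact_mod_cast hl
  have h' : (b : ℝ) + c ≤ l := by exact_mod_cast h
  have e0 : Real.log (1 + (b : ℝ)) + Real.log (1 + (c : ℝ)) =
      Real.log ((1 + (b : ℝ)) * (1 + c)) := (Real.log_mul (by positivity) (by positivity)).symm
  have h1 : (1 + (b : ℝ)) * (1 + c) ≤ (3 / 4 * (1 + (l : ℝ))) ^ 2 := by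
    nlinarith [sq_nonneg ((b : ℝ) - c)]
  have h2 := Real.log_le_log (by positivity) h1
  have e3 : Real.log ((3 / 4 * (1 + (l : ℝ))) ^ 2) =
      2 * (Real.log (3 / 4) + Real.log (1 + (l : ℝ))) := by
    rw [Real.log_pow, Real.log_mul (by norm_num) (by positivity)]
    push_cast; ring
  have h3 : Real.log (3 / 4) ≤ 3 / 4 - 1 := Real.log_le_sub_one_of_pos (by norm_num)
  rw [e0]
  rw [e3] at h2
  linarith

theorem qc_append (Q : Finset ℕ) (A B : List ℕ) : qc Q (A ++ B) = qc Q A + qc Q B := by
  simp [qc]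

theorem isRank {M : ℕ} {f : ℕ → ℕ} {Q : Finset ℕ} {K : List ℕ} (hs : K.Pairwise (· < ·))
    (hM : ∀ k ∈ K, f k ≤ M) (ht : TieQ f Q K) : IsRank (Rk M f Q) K := by
  constructor
  · intro A B C _
    unfold Rk
    have h1 : mnl M f (A ++ B ++ C) ≤ mnl M f B := by
      rw [mnl_append, mnl_append]; omega
    have h2 : qc Q B ≤ qc Q (A ++ B ++ C) := by
      rw [qc_append, qc_append]; omega
    have h1' : (mnl M f (A ++ B ++ C) : ℝ) ≤ mnl M f B := by exact_mod_cast h1
    have h2' : (qc Q B : ℝ) ≤ qc Q (A ++ B ++ C) := by exact_mod_cast h2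
    have h3 : Real.log (1 + (qc Q B : ℝ)) ≤ Real.log (1 + (qc Q (A ++ B ++ C) : ℝ)) :=
      Real.log_le_log (by positivity) (by linarith)
    linarith
  · intro B a C hB hC hi
    unfold Rk
    have hsub : ∀ k ∈ B ++ a :: C, k ∈ K := fun k hk => hi.subset hk
    have hsL : (B ++ a :: C).Pairwise (· < ·) := hs.sublist hi.sublist
    have e1 : mnl M f (B ++ a :: C) ≤ mnl M f B := by rw [mnl_append]; omega
    have e2 : mnl M f (B ++ a :: C) ≤ mnl M f C := by
      rw [mnl_append]; simp only [mnl]; omega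
    have e1' : (mnl M f (B ++ a :: C) : ℝ) ≤ mnl M f B := by exact_mod_cast e1
    have e2' : (mnl M f (B ++ a :: C) : ℝ) ≤ mnl M f C := by exact_mod_cast e2
    have q0 : qc Q B + qc Q C ≤ qc Q (B ++ a :: C) := by
      rw [qc_append]; simp only [qc, List.countP_cons]; omega
    by_cases hc : 2 * mnl M f (B ++ a :: C) + 1 ≤ mnl M f B + mnl M f C
    · have hc' : 2 * (mnl M f (B ++ a :: C) : ℝ) + 1 ≤ mnl M f B + mnl M f C := by
        exact_mod_cast hc
      have q1 : (qc Q B : ℝ) ≤ qc Q (B ++ a :: C) := by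
        have : qc Q B ≤ qc Q (B ++ a :: C) := by omega
        exact_mod_cast this
      have q2 : (qc Q C : ℝ) ≤ qc Q (B ++ a :: C) := by
        have : qc Q C ≤ qc Q (B ++ a :: C) := by omega
        exact_mod_cast this
      have h3 : Real.log (1 + (qc Q B : ℝ)) ≤ Real.log (1 + (qc Q (B ++ a :: C) : ℝ)) :=
        Real.log_le_log (by positivity) (by linarith)
      have h4 : Real.log (1 + (qc Q C : ℝ)) ≤ Real.log (1 + (qc Q (B ++ a :: C) : ℝ)) :=
        Real.log_le_log (by positivity) (by linarith)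
      linarith
    · -- a tie
      obtain ⟨k1, hk1, f1⟩ := mnl_att (M := M) (f := f) (A := B)
        (fun k hk => hM k (hsub k (by simp [hk]))) hB
      obtain ⟨k2, hk2, f2⟩ := mnl_att (M := M) (f := f) (A := C)
        (fun k hk => hM k (hsub k (by simp [hk]))) hC
      have hlt : k1 < k2 := by
        rw [List.pairwise_append] at hsL
        exact hsL.2.2 k1 hk1 k2 (by simp [hk2])
      have hk1L : k1 ∈ B ++ a :: C := by simp [hk1]
      have hk2L : k2 ∈ B ++ a :: C := by simp [hk2]
      have hq : 1 ≤ qc Q (B ++ a :: C) := by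
        rcases ht k1 (hsub k1 hk1L) k2 (hsub k2 hk2L) hlt (by omega) with
          ⟨j, hj, j1, j2, j3⟩ | ⟨q, hq, hqQ, q1, q2⟩
        · have hjL := infix_conv hs hi hk1L hk2L hj (by omega) (by omega)
          have := mnl_le (M := M) (f := f) hjL
          omega
        · have hqL := infix_conv hs hi hk1L hk2L hq q1 q2
          unfold qc
          rw [Nat.one_le_iff_ne_zero, Ne, List.countP_eq_zero]
          intro hh
          exact hh q hqL (by simpa using hqQ)
      have := log_prod q0 hq
      linarith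

/-- the logarithmic part of the potential -/
noncomputable def Lam (Q : Finset ℕ) : Tr → ℝ
  | nil => 0
  | node a l r => Real.log (1 + (qc Q (keys (node a l r)) : ℝ)) + Lam Q l + Lam Q r

theorem lam_nonneg (Q : Finset ℕ) : ∀ t : Tr, 0 ≤ Lam Q t := by
  intro t
  induction t with
  | nil => simp [Lam]
  | node a l r ihl ihr =>
    simp only [Lam]
    have : 0 ≤ Real.log (1 + (qc Q (keys (node a l r)) : ℝ)) :=
      Real.log_nonneg (by have : (0 : ℝ) ≤ qc Q (keys (node a l r)) := by positivity
                          linarith)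
    linarith

theorem lam_empty : ∀ t : Tr, Lam ∅ t = 0 := by
  intro t
  induction t with
  | nil => simp [Lam]
  | node a l r ihl ihr => simp [Lam, ihl, ihr, qc]

/-- the potential -/
noncomputable def Pot (M : ℕ) (f : ℕ → ℕ) (Q : Finset ℕ) (t : Tr) : ℝ :=
  2 * (Phi M f t : ℝ) + 4 * Lam Q t

theorem phi_nonneg {M : ℕ} {f : ℕ → ℕ} : ∀ t : Tr, 0 ≤ Phi M f t := by
  intro t
  induction t with
  | nil => simp [Phi]
  | node a l r ihl ihr =>
    simp only [Phi, mn]
    have : min (f a) (min (mn M f l) (mn M f r)) ≤ f a := by omega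
    have : ((min (f a) (min (mn M f l) (mn M f r)) : ℕ) : ℤ) ≤ (f a : ℤ) := by
      exact_mod_cast this
    linarith

theorem pot_nonneg (M : ℕ) (f : ℕ → ℕ) (Q : Finset ℕ) (t : Tr) : 0 ≤ Pot M f Q t := by
  unfold Pot
  have h1 : (0 : ℝ) ≤ (Phi M f t : ℝ) := by exact_mod_cast phi_nonneg t
  have h2 := lam_nonneg Q t
  linarith

theorem psi_eq {M : ℕ} {f : ℕ → ℕ} {Q : Finset ℕ} : ∀ t : Tr,
    Psi (Rk M f Q) t = Pot M f Q t - 2 * (((keys t).map f).sum : ℝ) := by
  intro t
  induction t with
  | nil => simp [Psi, Pot, Phi, Lam, keys]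
  | node a l r ihl ihr =>
    unfold Pot at ihl ihr ⊢
    simp only [Psi, Phi, Lam]
    rw [ihl, ihr]
    unfold Rk
    rw [mn_eq]
    have : ((keys (node a l r)).map f).sum = ((keys l).map f).sum + (f a + ((keys r).map f).sum) := by
      simp [keys]
    rw [this]
    push_cast
    ring

theorem qc_le_card {Q : Finset ℕ} {A : List ℕ} (h : A.Nodup) : qc Q A ≤ Q.card := by
  unfold qc
  rw [List.countP_eq_length_filter]
  have h1 : (A.filter (fun a => decide (a ∈ Q))).Nodup := h.filter _
  rw [← List.toFinset_card_of_nodup h1]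
  refine Finset.card_le_card ?_
  intro a ha
  rw [List.mem_toFinset, List.mem_filter] at ha
  simpa using ha.2

theorem bst_nodup {t : Tr} (h : IsBST t) : (keys t).Nodup :=
  List.Pairwise.imp (fun {a b} hab => by omega) h

/-- the amortised cost of an access -/
theorem access_pot {M : ℕ} {f : ℕ → ℕ} {Q : Finset ℕ} {x : ℕ} {S : Tr} (hb : IsBST S)
    (hx : x ∈ keys S) (hM : ∀ k ∈ keys S, f k ≤ M) (ht : TieQ f Q (keys S)) :
    (dep x S : ℝ) + Pot M f Q (splay x S) ≤
      Pot M f Q S + 6 * (f x : ℝ) + 12 * Real.log (1 + (Q.card : ℝ)) + 1 := by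
  obtain ⟨X, h1, h2, h3, h4⟩ := access_psi (R := Rk M f Q) hb hx (isRank hb hM ht)
  rw [psi_eq, psi_eq, h3] at h4
  have a1 : Rk M f Q (keys S) ≤ 4 * Real.log (1 + (Q.card : ℝ)) := by
    unfold Rk
    have q1 : (qc Q (keys S) : ℝ) ≤ Q.card := by exact_mod_cast qc_le_card (bst_nodup hb)
    have q2 : Real.log (1 + (qc Q (keys S) : ℝ)) ≤ Real.log (1 + (Q.card : ℝ)) :=
      Real.log_le_log (by positivity) (by linarith)
    have q3 : (0 : ℝ) ≤ mnl M f (keys S) := by positivity
    linarith
  have a2 : -2 * (f x : ℝ) ≤ Rk M f Q X := by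
    unfold Rk
    have q1 : (mnl M f X : ℝ) ≤ f x := by exact_mod_cast mnl_le h1
    have q2 : 0 ≤ Real.log (1 + (qc Q X : ℝ)) :=
      Real.log_nonneg (by have : (0 : ℝ) ≤ qc Q X := by positivity
                          linarith)
    linarith
  linarith

theorem lam_insert {Q : Finset ℕ} {x : ℕ} : ∀ {t : Tr}, x ∉ keys t →
    Lam (insert x Q) t = Lam Q t := by
  intro t
  induction t with
  | nil => intro _; simp [Lam]
  | node a l r ihl ihr =>
    intro h
    have h1 : x ∉ keys l := fun hh => h (by simp [keys, hh])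
    have h2 : x ∉ keys r := fun hh => h (by simp [keys, hh])
    simp only [Lam, ihl h1, ihr h2]
    have : qc (insert x Q) (keys (node a l r)) = qc Q (keys (node a l r)) := by
      unfold qc
      refine List.countP_congr ?_
      intro b hb
      have hbx : b ≠ x := fun e => h (e ▸ hb)
      simp [hbx]
    rw [this]

/-- moving the requested key to the root in the reference tree -/
theorem move_pot {M x : ℕ} {Q : Finset ℕ} {R l r : Tr} (hR : IsBST R) (hx : x ∈ keys R)
    (hk : keys (node x l r) = keys R) (hM : size R ≤ M) :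
    Pot M (fun y => lev (insert x Q) y (toRoot x R)) (insert x Q) (node x l r) ≤
      Pot M (fun y => lev Q y R) Q (node x l r) +
        4 * Real.log (1 + ((insert x Q).card : ℝ)) := by
  have hb : IsBST (node x l r) := by unfold IsBST; rw [hk]; exact hR
  obtain ⟨hl, hr, h1, h2⟩ := bst_node hb
  have e : keys (node x l r) = keys l ++ x :: keys r := rfl
  have hsz : size (toRoot x R) = size R := by
    rw [size_eq, size_eq, (toRoot_spec x R hR hx).2]
  have hM1 : ∀ k ∈ keys R, lev Q k R ≤ M := fun k _ => by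
    have := lev_le_dep Q k R
    have := dep_le_size k R
    omega
  have hM2 : ∀ k ∈ keys R, lev (insert x Q) k (toRoot x R) ≤ M := fun k _ => by
    have := lev_le_dep (insert x Q) k (toRoot x R)
    have := dep_le_size k (toRoot x R)
    omega
  have hcmp := lev_cmp hR hx Q
  have pl := phi_mono (M := M) (f := fun k => lev Q k R)
    (g := fun k => lev (insert x Q) k (toRoot x R))
    (K := keys R) x hcmp hM1 hM2 l [] (x :: keys r)
    (by rw [List.nil_append, ← e, hk]; exact hR) (by rw [List.nil_append, ← e, hk])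
    (Or.inl h1)
  have pr := phi_mono (M := M) (f := fun k => lev Q k R)
    (g := fun k => lev (insert x Q) k (toRoot x R))
    (K := keys R) x hcmp hM1 hM2 r (keys l ++ [x]) []
    (by
      have : keys l ++ [x] ++ keys r ++ [] = keys R := by rw [← hk, e]; simp
      rw [this]; exact hR)
    (by rw [← hk, e]; simp) (Or.inr h2)
  have z1 : lev (insert x Q) x (toRoot x R) = 0 := by
    unfold lev; rw [anc_toRoot_self hR hx]; rfl
  have z2 : mn M (fun k => lev (insert x Q) k (toRoot x R)) (node x l r) = 0 := by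
    have : mn M (fun k => lev (insert x Q) k (toRoot x R)) (node x l r) ≤
        lev (insert x Q) x (toRoot x R) :=
      mn_le_key (f := fun k => lev (insert x Q) k (toRoot x R)) (by simp [keys])
    omega
  have z3 : mn M (fun k => lev Q k R) (node x l r) ≤ lev Q x R :=
    mn_le_key (f := fun k => lev Q k R) (by simp [keys])
  have hphi : Phi M (fun y => lev (insert x Q) y (toRoot x R)) (node x l r) ≤
      Phi M (fun y => lev Q y R) (node x l r) := by
    simp only [Phi]
    rw [z2, z1]
    push_cast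
    omega
  have hphi' : (Phi M (fun y => lev (insert x Q) y (toRoot x R)) (node x l r) : ℝ) ≤
      Phi M (fun y => lev Q y R) (node x l r) := by exact_mod_cast hphi
  have hxl : x ∉ keys l := fun h => by have := h1 x h; omega
  have hxr : x ∉ keys r := fun h => by have := h2 x h; omega
  have hlam : Lam (insert x Q) (node x l r) ≤ Lam Q (node x l r) +
      Real.log (1 + ((insert x Q).card : ℝ)) := by
    simp only [Lam]
    rw [lam_insert hxl, lam_insert hxr]
    have q1 : (qc (insert x Q) (keys (node x l r)) : ℝ) ≤ (insert x Q).card := by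
      exact_mod_cast qc_le_card (bst_nodup hb)
    have q2 : Real.log (1 + (qc (insert x Q) (keys (node x l r)) : ℝ)) ≤
        Real.log (1 + ((insert x Q).card : ℝ)) :=
      Real.log_le_log (by positivity) (by linarith)
    have q3 : 0 ≤ Real.log (1 + (qc Q (keys (node x l r)) : ℝ)) :=
      Real.log_nonneg (by have : (0 : ℝ) ≤ qc Q (keys (node x l r)) := by positivity
                          linarith)
    linarith
  unfold Pot
  linarith

/-- raising the levels of the keys, by a constant on intervals without keys of `Q` -/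
theorem phi_shift {M h : ℕ} {f g : ℕ → ℕ} {Q : Finset ℕ} {K : List ℕ}
    (hgM : ∀ k ∈ K, g k ≤ M) (hfM : ∀ k ∈ K, f k ≤ M)
    (h1 : ∀ k ∈ K, f k ≤ g k ∧ g k ≤ f k + h)
    (h2 : ∀ k ∈ K, ∀ k' ∈ K, (∀ q ∈ K, Btw k k' q → q ∉ Q) → g k + f k' = g k' + f k) :
    ∀ (t : Tr) (A C : List ℕ), (A ++ keys t ++ C).Pairwise (· < ·) → A ++ keys t ++ C = K →
      Phi M g t ≤ Phi M f t + (h : ℤ) * (ancs Q t : ℤ) := by
  intro t
  induction t with
  | nil => intro A C _ _; simp [Phi, ancs]
  | node a l r ihl ihr =>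
    intro A C hs hK
    have hl := ihl A (a :: keys r ++ C)
      (by simp only [keys] at hs; simpa [List.append_assoc] using hs)
      (by rw [← hK]; simp [keys])
    have hr := ihr (A ++ keys l ++ [a]) C
      (by simp only [keys] at hs; simpa [List.append_assoc] using hs)
      (by rw [← hK]; simp [keys])
    have hin : ∀ k ∈ keys (node a l r), k ∈ K := by
      intro k hk; rw [← hK]; simp [hk]
    have hak : a ∈ keys (node a l r) := by simp [keys]
    have ha := h1 a (hin a hak)
    by_cases hm : Meets Q (node a l r)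
    · rw [ancs_of_meets hm]
      have hmn : mn M f (node a l r) ≤ mn M g (node a l r) := by
        refine mn_ge _ (fun k hk => ?_) (mn_le_M _)
        exact le_trans (mn_le_key hk) (h1 k (hin k hk)).1
      simp only [Phi]
      push_cast
      have e : (h : ℤ) * (1 + (ancs Q l : ℤ) + (ancs Q r : ℤ)) =
          h + h * (ancs Q l : ℤ) + h * (ancs Q r : ℤ) := by ring
      rw [e]
      have ha2 : (g a : ℤ) ≤ f a + h := by exact_mod_cast ha.2
      have hmn' : (mn M f (node a l r) : ℤ) ≤ mn M g (node a l r) := by exact_mod_cast hmn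
      linarith
    · have hsK : K.Pairwise (· < ·) := by rw [← hK]; exact hs
      have hinf : keys (node a l r) <:+: K := ⟨A, C, hK⟩
      have hconst : ∀ k ∈ keys (node a l r), g k + f a = g a + f k := by
        intro k hk
        refine h2 k (hin k hk) a (hin a hak) ?_
        intro q hq hb hqQ
        refine hm ⟨q, ?_, hqQ⟩
        rcases hb with hb | hb
        · exact infix_conv hsK hinf hk hak hq hb.1 hb.2
        · exact infix_conv hsK hinf hak hk hq hb.1 hb.2
      obtain ⟨u, hu, eu⟩ := mn_att (M := M) (f := f) (t := node a l r)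
        (fun k hk => hfM k (hin k hk)) (by simp)
      have hmn : mn M f (node a l r) + (g a - f a) ≤ mn M g (node a l r) := by
        refine mn_ge _ (fun k hk => ?_) ?_
        · have q1 := hconst k hk
          have q2 := mn_le_key (M := M) (f := f) hk
          have q3 := (h1 a (hin a hak)).1
          omega
        · have q1 := hconst u hu
          have q2 := hgM u (hin u hu)
          omega
      have hle := le_ancs Q a l r
      simp only [Phi]
      have e : (h : ℤ) * (ancs Q l : ℤ) + h * (ancs Q r : ℤ) ≤ h * (ancs Q (node a l r) : ℤ) := by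
        have : ((ancs Q l : ℤ) + ancs Q r) ≤ ancs Q (node a l r) := by exact_mod_cast hle
        nlinarith [Int.natCast_nonneg h]
      have hmn' : (mn M f (node a l r) : ℤ) + ((g a : ℤ) - f a) ≤ mn M g (node a l r) := by
        have : ((mn M f (node a l r) + (g a - f a) : ℕ) : ℤ) ≤ (mn M g (node a l r) : ℤ) := by
          exact_mod_cast hmn
        rw [Nat.cast_add, Nat.cast_sub ha.1] at this
        exact this
      linarith

end Run7.h471.Spl
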