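import Pool.Agent.Run7.h471.Spl.Pot
import Pool.Agent.TH22.SP.Depth

set_option autoImplicit false

/-! Executions with blocks. -/

namespace Run7.h471.Spl

open Pool.Agent.H581R2.Splay Pool.Agent.TH22.SP Tr

/-- the number of different labels on the search path to `x`, the label of `x` included -/
def blk (G : ℕ → ℕ) (x : ℕ) (t : Tr) : ℕ := ((x :: anc x t).map G).toFinset.card

/-- `Phase γ G T X G' T' c`: in a phase with the label `γ` the requests `X` are served, starting with
the tree `T` and the labels `G` of the keys; `T'` and `G'` are the tree and the labels at the end. A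
request of `x` costs the number of different labels on the search path to `x`; then the tree is left
alone, or `x` is moved to the root by rotations at `x` and gets the label `γ`. Edges between two keys
with the same label may be rotated free of charge at any time. -/
inductive Phase (γ : ℕ) : (ℕ → ℕ) → Tr → List ℕ → (ℕ → ℕ) → Tr → ℕ → Prop
  | nil (G : ℕ → ℕ) (T : Tr) : Phase γ G T [] G T 0
  | rotate (G G' : ℕ → ℕ) (T T1 T' : Tr) (X : List ℕ) (c : ℕ) :
      BRot G T T1 → Phase γ G T1 X G' T' c → Phase γ G T X G' T' c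
  | leave (G G' : ℕ → ℕ) (T T' : Tr) (x : ℕ) (X : List ℕ) (c : ℕ) :
      Phase γ G T X G' T' c → Phase γ G T (x :: X) G' T' (blk G x T + c)
  | move (G G' : ℕ → ℕ) (T T' : Tr) (x : ℕ) (X : List ℕ) (c : ℕ) :
      Phase γ (fun z => if z = x then γ else G z) (toRoot x T) X G' T' c →
        Phase γ G T (x :: X) G' T' (blk G x T + c)

/-- `Exec k G T X c`: the requests `X` are served in phases, starting with the tree `T` and the labels
`G`, at cost `c`; each phase has a label which no key has before this phase, and at its end at most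
`k` keys have this label. -/
inductive Exec (k : ℕ) : (ℕ → ℕ) → Tr → List ℕ → ℕ → Prop
  | nil (G : ℕ → ℕ) (T : Tr) : Exec k G T [] 0
  | phase (γ : ℕ) (G G' : ℕ → ℕ) (T T' : Tr) (X Y : List ℕ) (c d : ℕ) :
      (∀ z ∈ keys T, G z ≠ γ) → Phase γ G T X G' T' c →
      (keys T').countP (fun z => decide (G' z = γ)) ≤ k →
      Exec k G' T' Y d → Exec k G T (X ++ Y) (c + d)

theorem anc_split {y b : ℕ} : ∀ {t : Tr}, IsBST t → b ∈ anc y t →
    ∃ s, anc y t = anc b t ++ b :: s := by
  intro t
  induction t with
  | nil => intro _ h; simp [anc] at h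
  | node a l r ihl ihr =>
    intro hb h
    obtain ⟨hl, hr, g1, g2⟩ := bst_node hb
    rcases lt_trichotomy y a with h1 | h1 | h1
    · rw [anc_l h1] at h ⊢
      rcases List.mem_cons.1 h with h2 | h2
      · subst h2; exact ⟨anc y l, by rw [anc_a]; rfl⟩
      · obtain ⟨s, hs⟩ := ihl hl h2
        exact ⟨s, by rw [anc_l (g1 b (anc_mem h2)), hs]; rfl⟩
    · subst h1; rw [anc_a] at h; simp at h
    · rw [anc_r h1] at h ⊢
      rcases List.mem_cons.1 h with h2 | h2
      · subst h2; exact ⟨anc y r, by rw [anc_a]; rfl⟩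
      · obtain ⟨s, hs⟩ := ihr hr h2
        exact ⟨s, by rw [anc_r (g2 b (anc_mem h2)), hs]; rfl⟩

theorem anc_nodup {y : ℕ} : ∀ {t : Tr}, IsBST t → (anc y t).Nodup := by
  intro t
  induction t with
  | nil => intro _; simp [anc]
  | node a l r ihl ihr =>
    intro hb
    obtain ⟨hl, hr, g1, g2⟩ := bst_node hb
    rcases lt_trichotomy y a with h1 | h1 | h1
    · rw [anc_l h1, List.nodup_cons]
      exact ⟨fun h => by have := g1 a (anc_mem h); omega, ihl hl⟩
    · subst h1; rw [anc_a]; exact List.nodup_nil
    · rw [anc_r h1, List.nodup_cons]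
      exact ⟨fun h => by have := g2 a (anc_mem h); omega, ihr hr⟩

/-- in a tree with top part `Q` the numbers of ancestors in `Q` are constant on intervals without keys
of `Q` -/
theorem top_count {t : Tr} (hb : IsBST t) {Q : Finset ℕ} (htop : Top Q t) {k k' : ℕ}
    (hk : k ∈ keys t) (hk' : k' ∈ keys t) (hfree : ∀ q ∈ keys t, Btw k k' q → q ∉ Q) :
    (anc k t).countP (fun a => decide (a ∈ Q)) = (anc k' t).countP (fun a => decide (a ∈ Q)) := by
  obtain ⟨v, hv, b1, b2, b3⟩ := lca t hb k hk k' hk'
  have hvQ := hfree v hv b1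
  have main : ∀ w, Below t v w → (anc w t).countP (fun a => decide (a ∈ Q)) =
      (anc v t).countP (fun a => decide (a ∈ Q)) := by
    intro w hw
    rcases hw with h | ⟨h, β, e, hs⟩
    · rw [h]
    · have hβ : β.countP (fun a => decide (a ∈ Q)) = 0 := by
        rw [List.countP_eq_zero]
        intro b hbβ hbQ
        have hbQ' : b ∈ Q := by simpa using hbQ
        have hba : b ∈ anc w t := by rw [e]; simp [hbβ]
        obtain ⟨s, hs'⟩ := anc_split hb hba
        have hne : b ≠ v := (hs b hbβ).1
        have hnd := anc_nodup (y := w) hb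
        rw [e] at hnd hs'
        have hvb : v ∈ anc b t := by
          rcases List.append_eq_append_iff.1 hs' with ⟨as, e1, e2⟩ | ⟨bs, e1, e2⟩
          · cases as with
            | nil =>
              simp only [List.nil_append, List.cons.injEq] at e2
              exact absurd e2.1.symm hne
            | cons c as =>
              simp only [List.cons_append, List.cons.injEq] at e2
              rw [e1, e2.1]; simp
          · exfalso
            cases bs with
            | nil =>
              simp only [List.nil_append, List.cons.injEq] at e2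
              exact hne e2.1
            | cons c bs =>
              simp only [List.cons_append, List.cons.injEq] at e2
              have hbv : b ∈ anc v t := by rw [e1, ← e2.1]; simp
              rw [List.nodup_append] at hnd
              exact hnd.2.2 b hbv b (by simp [hbβ]) rfl
        exact hvQ (htop b hbQ' (anc_mem hba) v hvb)
      rw [e, List.countP_append, List.countP_cons, hβ, if_neg (by simpa using hvQ)]
      simp
  rw [main k b2, main k' b3]

theorem length_le_mul {G : ℕ → ℕ} {Lab : Finset ℕ} {L : ℕ} : ∀ (A : List ℕ),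
    (∀ a ∈ A, G a ∈ Lab) → (∀ g ∈ Lab, A.countP (fun a => decide (G a = g)) ≤ L) →
    A.length ≤ Lab.card * L := by
  intro A h1 h2
  have key : ∀ B : List ℕ, (∀ a ∈ B, G a ∈ Lab) →
      B.length = ∑ g ∈ Lab, B.countP (fun a => decide (G a = g)) := by
    intro B
    induction B with
    | nil => intro _; simp
    | cons b B ih =>
      intro h
      rw [List.length_cons, ih (fun a ha => h a (by simp [ha]))]
      simp only [List.countP_cons, decide_eq_true_eq]
      rw [Finset.sum_add_distrib, Finset.sum_ite_eq, if_pos (h b (by simp))]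
  rw [key A h1]
  calc ∑ g ∈ Lab, A.countP (fun a => decide (G a = g)) ≤ ∑ _g ∈ Lab, L := Finset.sum_le_sum h2
    _ = Lab.card * L := by simp

/-- the invariants -/
structure St (L γ : ℕ) (G : ℕ → ℕ) (Q : Finset ℕ) (O R S : Tr) (H : List ℕ) : Prop where
  bst : IsBST O
  kR : keys R = keys O
  kS : keys S = keys O
  hQ : ∀ z ∈ keys O, (z ∈ Q ↔ G z = γ)
  sub : ∀ q ∈ Q, q ∈ keys O
  top : Top Q R
  inv : ∀ y ∈ keys O, ∀ w ∈ anc y R, ∃ z, (z = y ∨ z ∈ anc y O) ∧ G z = G w ∧ Btw w y z
  ch : ∀ y ∈ keys O, ∀ g, g ≠ γ → (anc y R).countP (fun a => decide (G a = g)) ≤ L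
  his : Inv H S

theorem St.bR {L γ : ℕ} {G : ℕ → ℕ} {Q : Finset ℕ} {O R S : Tr} {H : List ℕ}
    (h : St L γ G Q O R S H) : IsBST R := by unfold IsBST; rw [h.kR]; exact h.bst

theorem St.bS {L γ : ℕ} {G : ℕ → ℕ} {Q : Finset ℕ} {O R S : Tr} {H : List ℕ}
    (h : St L γ G Q O R S H) : IsBST S := by unfold IsBST; rw [h.kS]; exact h.bst

theorem lev_bound {L γ : ℕ} {G : ℕ → ℕ} {Q : Finset ℕ} {O R S : Tr} {H : List ℕ}
    (h : St L γ G Q O R S H) {x : ℕ} (hx : x ∈ keys O) : lev Q x R ≤ L * blk G x O := by
  have h1 : ((anc x R).filter (fun a => decide (a ∉ Q))).length ≤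
      ((x :: anc x O).map G).toFinset.card * L := by
    refine length_le_mul (G := G) _ ?_ ?_
    · intro a ha
      obtain ⟨z, hz, e, _⟩ := h.inv x hx a (List.mem_filter.1 ha).1
      rw [List.mem_toFinset, List.mem_map]
      exact ⟨z, by rcases hz with hz | hz <;> simp [hz], e⟩
    · intro g _
      by_cases hg : g = γ
      · have : ((anc x R).filter (fun a => decide (a ∉ Q))).countP
            (fun a => decide (G a = g)) = 0 := by
          rw [List.countP_eq_zero]
          intro a ha haG
          rw [List.mem_filter] at ha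
          have hak : a ∈ keys O := by rw [← h.kR]; exact anc_mem ha.1
          have h2 : a ∉ Q := by simpa using ha.2
          have h3 : G a = g := by simpa using haG
          exact h2 ((h.hQ a hak).2 (by rw [h3, hg]))
        omega
      · refine le_trans ?_ (h.ch x hx g hg)
        exact List.Sublist.countP_le List.filter_sublist
  unfold lev blk
  rw [List.countP_eq_length_filter, Nat.mul_comm]
  exact h1

theorem blk_pos (G : ℕ → ℕ) (x : ℕ) (t : Tr) : 1 ≤ blk G x t := by
  unfold blk
  rw [Nat.one_le_iff_ne_zero, Ne, Finset.card_eq_zero]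
  simp

theorem blk_le (G : ℕ → ℕ) (x : ℕ) (t : Tr) : blk G x t ≤ 1 + dep x t := by
  unfold blk
  refine le_trans (List.toFinset_card_le _) ?_
  rw [dep_eq_anc, List.length_map, List.length_cons, Nat.add_comm]

theorem log_bound {k n : ℕ} (h : n ≤ k) :
    Real.log (1 + (n : ℝ)) ≤ 7 / 10 * ((Nat.log 2 k + 1 : ℕ) : ℝ) := by
  have h1 : k < 2 ^ (Nat.log 2 k + 1) := Nat.lt_pow_succ_log_self (by norm_num) k
  have h2 : 1 + n ≤ 2 ^ (Nat.log 2 k + 1) := by omega
  have h3 : (1 + (n : ℝ)) ≤ (2 : ℝ) ^ (Nat.log 2 k + 1) := by exact_mod_cast h2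
  have h4 := Real.log_le_log (by positivity) h3
  rw [Real.log_pow] at h4
  have h5 := Real.log_two_lt_d9
  have h6 : (0 : ℝ) ≤ ((Nat.log 2 k + 1 : ℕ) : ℝ) := by positivity
  nlinarith

theorem phase_sub {γ : ℕ} {G G' : ℕ → ℕ} {T T' : Tr} {X : List ℕ} {c : ℕ}
    (h : Phase γ G T X G' T' c) :
    (∀ z, G z = γ → G' z = γ) ∧ (∀ z, G' z = γ → G z = γ ∨ z ∈ X) ∧ X.length ≤ c := by
  induction h with
  | nil G T => exact ⟨fun _ h => h, fun _ h => Or.inl h, le_refl _⟩
  | rotate G G' T T1 T' X c _ _ ih => exact ih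
  | leave G G' T T' x X c _ ih =>
    obtain ⟨h1, h2, h3⟩ := ih
    refine ⟨h1, fun z hz => ?_, ?_⟩
    · rcases h2 z hz with h | h
      · exact Or.inl h
      · exact Or.inr (by simp [h])
    · have := blk_pos G x T
      simp only [List.length_cons]; omega
  | move G G' T T' x X c _ ih =>
    obtain ⟨h1, h2, h3⟩ := ih
    refine ⟨fun z hz => h1 z ?_, fun z hz => ?_, ?_⟩
    · by_cases e : z = x
      · simp [e]
      · simp [e, hz]
    · rcases h2 z hz with h | h
      · by_cases e : z = x
        · exact Or.inr (by simp [e])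
        · simp only [e, if_false] at h
          exact Or.inl h
      · exact Or.inr (by simp [h])
    · have := blk_pos G x T
      simp only [List.length_cons]; omega

theorem tie_of {L γ : ℕ} {G : ℕ → ℕ} {Q : Finset ℕ} {O R S : Tr} {H : List ℕ}
    (h : St L γ G Q O R S H) : TieQ (fun y => lev Q y R) Q (keys S) := by
  intro u hu u' hu' hlt he
  rw [h.kS, ← h.kR] at hu hu' ⊢
  exact tie_lev h.bR Q hu hu' hlt he

theorem lev_le_M {L γ M : ℕ} {G : ℕ → ℕ} {Q : Finset ℕ} {O R S : Tr} {H : List ℕ}
    (h : St L γ G Q O R S H) (hM : (keys O).length ≤ M) (y : ℕ) : lev Q y R ≤ M := by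
  have h1 := lev_le_dep Q y R
  have h2 := dep_le_size y R
  rw [size_eq, h.kR] at h2
  omega

/-- the invariants after a rotation inside a block -/
theorem st_rot {L γ : ℕ} {G : ℕ → ℕ} {Q : Finset ℕ} {O O1 R S : Tr} {H : List ℕ}
    (h : St L γ G Q O R S H) (hr : BRot G O O1) : St L γ G Q O1 R S H := by
  have hk := brot_keys hr
  refine ⟨by unfold IsBST; rw [hk]; exact h.bst, by rw [hk]; exact h.kR, by rw [hk]; exact h.kS,
    by rw [hk]; exact h.hQ, by rw [hk]; exact h.sub, h.top, ?_, by rw [hk]; exact h.ch, h.his⟩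
  intro y hy w hw
  rw [hk] at hy
  obtain ⟨z, hz, e, hb⟩ := h.inv y hy w hw
  rcases hz with hz | hz
  · exact ⟨z, Or.inl hz, e, hb⟩
  · obtain ⟨z1, c1, c2, c3⟩ := brot_anc hr h.bst y hy z hz
    refine ⟨z1, c1, by rw [c2, e], ?_⟩
    unfold Btw at hb c3 ⊢; omega

/-- the invariants after a request, the tree being left alone -/
theorem st_leave {L γ : ℕ} {G : ℕ → ℕ} {Q : Finset ℕ} {O R S : Tr} {H : List ℕ}
    (h : St L γ G Q O R S H) {x : ℕ} (hx : x ∈ keys O) : St L γ G Q O R (splay x S) (x :: H) := by
  have hxS : x ∈ keys S := by rw [h.kS]; exact hx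
  exact ⟨h.bst, h.kR, by rw [splay_keys h.bS hxS, h.kS], h.hQ, h.sub, h.top, h.inv, h.ch,
    inv_cons h.bS hxS h.his⟩

/-- the invariants after a request, the key being moved to the root -/
theorem st_move {L γ : ℕ} {G : ℕ → ℕ} {Q : Finset ℕ} {O R S : Tr} {H : List ℕ}
    (h : St L γ G Q O R S H) {x : ℕ} (hx : x ∈ keys O) :
    St L γ (fun z => if z = x then γ else G z) (insert x Q) (toRoot x O) (toRoot x R)
      (splay x S) (x :: H) := by
  have hxS : x ∈ keys S := by rw [h.kS]; exact hx
  have hxR : x ∈ keys R := by rw [h.kR]; exact hx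
  have kO := (toRoot_spec x O h.bst hx).2
  have kR' := (toRoot_spec x R h.bR hxR).2
  refine ⟨toRoot_bst h.bst hx, by rw [kR', kO, h.kR], by rw [splay_keys h.bS hxS, h.kS, kO], ?_, ?_,
    top_toRoot h.bR hxR h.top, ?_, ?_, inv_cons h.bS hxS h.his⟩
  · intro z hz
    rw [kO] at hz
    by_cases e : z = x
    · simp [e]
    · simp [e, h.hQ z hz]
  · intro q hq
    rw [kO]
    rcases Finset.mem_insert.1 hq with e | e
    · rw [e]; exact hx
    · exact h.sub q e
  · intro y hy w hw
    rw [kO] at hy
    by_cases hyx : y = x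
    · rw [hyx, anc_toRoot_self h.bR hxR] at hw; simp at hw
    · rw [anc_toRoot x R h.bR hxR y hyx] at hw
      rw [anc_toRoot x O h.bst hx y hyx]
      rcases List.mem_cons.1 hw with hw | hw
      · exact ⟨x, Or.inr (by simp), by simp [hw], by unfold Btw; omega⟩
      · rw [List.mem_filter] at hw
        have hw2 : w ≠ x ∧ (w < x ↔ y < x) := by simpa using hw.2
        obtain ⟨z, hz, e, hb⟩ := h.inv y hy w hw.1
        have hzx : z ≠ x ∧ (z < x ↔ y < x) := by unfold Btw at hb; omega
        refine ⟨z, ?_, ?_, hb⟩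
        · rcases hz with hz | hz
          · exact Or.inl hz
          · right
            rw [List.mem_cons, List.mem_filter]
            exact Or.inr ⟨hz, by simpa using hzx⟩
        · simp only [hzx.1, hw2.1, if_false]
          exact e
  · intro y hy g hg
    rw [kO] at hy
    by_cases hyx : y = x
    · rw [hyx, anc_toRoot_self h.bR hxR]; simp
    · rw [anc_toRoot x R h.bR hxR y hyx, List.countP_cons,
        if_neg (by simp only [if_true, decide_eq_true_eq]; exact fun e => hg e.symm)]
      refine le_trans ?_ (h.ch y hy g hg)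
      rw [Nat.add_zero, List.countP_filter]
      refine List.countP_mono_left ?_
      intro a _ ha
      simp only [Bool.and_eq_true, decide_eq_true_eq] at ha
      rw [if_neg ha.2.1] at ha
      simpa using ha.1

end Run7.h471.Spl
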